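import Pool.Agent.H591R3.PHG.Defs

/-!
# The numbers
-/

set_option autoImplicit false

namespace Pool.Agent.J6H7.RO

theorem eval_le_pow (P : Polynomial ℕ) {n : ℕ} (hn : 1 ≤ n) :
    P.eval n ≤ P.eval 1 * n ^ P.natDegree := by
  rw [Polynomial.eval_eq_sum_range, Polynomial.eval_eq_sum_range, Finset.sum_mul]
  refine Finset.sum_le_sum fun i hi => ?_
  rw [Finset.mem_range] at hi
  rw [one_pow, mul_one]
  exact Nat.mul_le_mul_left _ (Nat.pow_le_pow_right hn (by omega))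

/-- the choice of the parameter `u` -/
theorem exists_numbers (k : ℕ) (R : Polynomial ℕ) : ∃ C N₀ : ℕ, ∀ N : ℕ, N₀ ≤ N →
    ∃ u : ℕ, 1 ≤ u ∧ R.eval N ≤ 2 ^ u ∧ ∀ (t : ℝ) (a s : ℕ), 2 ^ a * t < 96 * u →
      s ≤ 512 * u * (k + 1) → (N : ℝ) ^ C ≤ t * 2 ^ N → a + s + (u + 11) ≤ N := by
  set e : ℕ := R.natDegree + 1 with he
  set B : ℕ := 512 * (k + 1) + 20 with hB
  refine ⟨(e + 1) * B, max 2 (R.eval 1), fun N hN => ?_⟩
  have hN2 : 2 ≤ N := (le_max_left _ _).trans hN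
  have hNR : R.eval 1 ≤ N := (le_max_right _ _).trans hN
  have h1 : R.eval N ≤ N ^ e := by
    refine (eval_le_pow R (by omega)).trans ?_
    rw [he, pow_succ, mul_comm]
    exact Nat.mul_le_mul_left _ hNR
  have hbig : 2 ≤ N ^ e := by
    calc 2 ≤ N := hN2
      _ = N ^ 1 := (pow_one N).symm
      _ ≤ N ^ e := Nat.pow_le_pow_right (by omega) (by omega)
  set u := Nat.clog 2 (N ^ e) with hu
  have hu1 : N ^ e ≤ 2 ^ u := Nat.le_pow_clog (by norm_num) _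
  have hu2 : 2 ^ (u - 1) < N ^ e := Nat.pow_pred_clog_lt_self (by norm_num) (by omega)
  have hu0 : 1 ≤ u := by
    by_contra h
    have : u = 0 := by omega
    rw [this] at hu1
    omega
  refine ⟨u, hu0, h1.trans hu1, fun t a s ha hs hC => ?_⟩
  have hu3 : 2 ^ u ≤ N ^ (e + 1) := by
    obtain ⟨v, hv⟩ : ∃ v, u = v + 1 := ⟨u - 1, by omega⟩
    rw [hv] at hu2 ⊢
    rw [Nat.add_sub_cancel] at hu2
    rw [pow_succ, pow_succ]
    exact Nat.mul_le_mul hu2.le hN2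
  have hu4 : 2 ^ (u * B) ≤ N ^ ((e + 1) * B) := by
    rw [pow_mul, pow_mul]
    exact Nat.pow_le_pow_left hu3 B
  have hu4' : (2 : ℝ) ^ (u * B) ≤ (N : ℝ) ^ ((e + 1) * B) := by exact_mod_cast hu4
  have h96 : (96 * u : ℝ) ≤ 2 ^ (7 + u) := by
    have : u < 2 ^ u := Nat.lt_two_pow_self
    have h2 : (u : ℝ) ≤ 2 ^ u := by exact_mod_cast this.le
    have h3 : (0 : ℝ) ≤ u := Nat.cast_nonneg u
    calc (96 * u : ℝ) ≤ 128 * 2 ^ u := by linarith
      _ = 2 ^ (7 + u) := by rw [pow_add]; norm_num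
  have key : (2 : ℝ) ^ (a + s + (u + 11)) * (N : ℝ) ^ ((e + 1) * B) <
      (N : ℝ) ^ ((e + 1) * B) * 2 ^ N := by
    have hp : (0 : ℝ) < 2 ^ (s + (u + 11)) := by positivity
    have hp2 : (0 : ℝ) < 2 ^ N := by positivity
    calc (2 : ℝ) ^ (a + s + (u + 11)) * (N : ℝ) ^ ((e + 1) * B)
        ≤ (2 : ℝ) ^ (a + s + (u + 11)) * (t * 2 ^ N) :=
          mul_le_mul_of_nonneg_left hC (by positivity)
      _ = (2 ^ a * t) * (2 ^ (s + (u + 11)) * 2 ^ N) := by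
          rw [show a + s + (u + 11) = a + (s + (u + 11)) by ring, pow_add]; ring
      _ < (96 * u) * (2 ^ (s + (u + 11)) * 2 ^ N) :=
          mul_lt_mul_of_pos_right ha (by positivity)
      _ ≤ 2 ^ (7 + u) * (2 ^ (s + (u + 11)) * 2 ^ N) :=
          mul_le_mul_of_nonneg_right h96 (by positivity)
      _ = 2 ^ (7 + u + (s + (u + 11))) * 2 ^ N := by
          rw [← mul_assoc, ← pow_add]
      _ ≤ 2 ^ (u * B) * 2 ^ N := by
          apply mul_le_mul_of_nonneg_right _ (by positivity)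
          apply pow_le_pow_right₀ (by norm_num)
          have h7 : u * B = 512 * u * (k + 1) + 20 * u := by rw [hB]; ring
          rw [h7]
          omega
      _ ≤ (N : ℝ) ^ ((e + 1) * B) * 2 ^ N :=
          mul_le_mul_of_nonneg_right hu4' (by positivity)
  rw [mul_comm] at key
  have hNp : (0 : ℝ) < (N : ℝ) ^ ((e + 1) * B) := by
    have : (0 : ℝ) < N := by exact_mod_cast (by omega : 0 < N)
    positivity
  have h5 := lt_of_mul_lt_mul_left key hNp.le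
  have h6 := (pow_lt_pow_iff_right₀ (by norm_num : (1 : ℝ) < 2)).1 h5
  omega

/-- the sum of all the errors -/
theorem error_le {k u ℓ P c R N : ℕ} (hu : 1 ≤ u) (hR : R ≤ 2 ^ u) (hP : ℓ ≤ P)
    (h : P + c + k + N + 10 ≤ R) :
    (2 : ℝ) ^ (c + 1) * ((k : ℝ) * (2 ^ (ℓ + 2) * (1 / 2) ^ (2 ^ (2 * u) + 1)) +
      3 * (1 / 2) ^ (2 ^ u)) ≤ 2 * (1 / 2) ^ N := by
  have hk : (k : ℝ) ≤ 2 ^ k := by
    have : k < 2 ^ k := Nat.lt_two_pow_self
    exact_mod_cast this.le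
  have h3 : (3 : ℝ) ≤ 2 ^ 2 := by norm_num
  have hle : ∀ A B : ℕ, A + N ≤ B → (2 : ℝ) ^ A * (1 / 2) ^ B ≤ (1 / 2) ^ N := by
    intro A B hAB
    obtain ⟨d, rfl⟩ := Nat.exists_eq_add_of_le hAB
    have h4 : (2 : ℝ) ^ A * (1 / 2) ^ (A + N + d) = (1 / 2) ^ (N + d) := by
      rw [add_assoc, pow_add (1 / 2 : ℝ) A, ← mul_assoc, ← mul_pow]
      norm_num
    rw [h4]
    exact pow_le_pow_of_le_one (by norm_num) (by norm_num) (by omega)
  have h2u : 2 ^ u ≤ 2 ^ (2 * u) := Nat.pow_le_pow_right (by norm_num) (by omega)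
  have e1 : (2 : ℝ) ^ (c + 1) * ((k : ℝ) * (2 ^ (ℓ + 2) * (1 / 2) ^ (2 ^ (2 * u) + 1))) ≤
      (1 / 2) ^ N := by
    calc (2 : ℝ) ^ (c + 1) * ((k : ℝ) * (2 ^ (ℓ + 2) * (1 / 2) ^ (2 ^ (2 * u) + 1)))
        ≤ (2 : ℝ) ^ (c + 1) * (2 ^ k * (2 ^ (ℓ + 2) * (1 / 2) ^ (2 ^ (2 * u) + 1))) := by
          apply mul_le_mul_of_nonneg_left _ (by positivity)
          apply mul_le_mul_of_nonneg_right hk (by positivity)
      _ = 2 ^ ((c + 1) + (k + (ℓ + 2))) * (1 / 2) ^ (2 ^ (2 * u) + 1) := by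
          rw [pow_add _ (c + 1), pow_add _ k]; ring
      _ ≤ (1 / 2) ^ N := hle _ _ (by omega)
  have e2 : (2 : ℝ) ^ (c + 1) * (3 * (1 / 2) ^ (2 ^ u)) ≤ (1 / 2) ^ N := by
    calc (2 : ℝ) ^ (c + 1) * (3 * (1 / 2) ^ (2 ^ u))
        ≤ (2 : ℝ) ^ (c + 1) * (2 ^ 2 * (1 / 2) ^ (2 ^ u)) := by
          apply mul_le_mul_of_nonneg_left _ (by positivity)
          apply mul_le_mul_of_nonneg_right h3 (by positivity)
      _ = 2 ^ ((c + 1) + 2) * (1 / 2) ^ (2 ^ u) := by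
          rw [pow_add _ (c + 1)]; ring
      _ ≤ (1 / 2) ^ N := hle _ _ (by omega)
  rw [mul_add]
  linarith

end Pool.Agent.J6H7.RO
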