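import Pool.Agent.J6H7.RO.Orc

/-!
# A nonuniform upward collapse
-/

set_option autoImplicit false

namespace Pool.Agent.J6H7.RO

open Pool.Agent.NPC Pool.Agent.H620R2.Gauge Pool.Agent.H622R2 Pool.Agent.H591R3.PHG

/-- an existential quantifier in front of `k` quantifiers, with bounds and strings which are
computable in polynomial time -/
theorem isSig_ex {A : Oracle} {k : ℕ} {ν μ : List Bool → ℕ} {π : List Bool → List Bool}
    (hν : UPoly ν) (hμ : UPoly μ) (hπ : Poly π) {V : List Bool → List Bool} (hV : IsFP A V)
    {L : Set (List Bool)} (hL : ∀ u, u ∈ L ↔ ∃ w : List Bool, w.length ≤ ν u ∧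
      Quant (μ (pairBits w u)) V k false (π (pairBits w u))) : IsSig A (k + 1) L := by
  obtain ⟨pν, hpν⟩ := upoly_bound hν
  obtain ⟨pμ, hpμ⟩ := upoly_bound hμ
  have h1 : Poly (fun z : List Bool => (unpair z).1) := Poly.fst poly_unpair
  have h2 : Poly (fun z : List Bool => (unpair z).2) := Poly.snd poly_unpair
  have hν2 : UPoly (fun z : List Bool => ν (unpair z).2) := hν.comp h2
  set cw : List Bool → List Bool := fun z =>
    pairBits (((unpair z).1.zip (List.replicate (ν (unpair z).2) ())).map
      (fun u => u.1)) (unpair z).2 with hcw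
  have hcwP : Poly cw := by
    have h4 : Poly (fun z : List Bool =>
        (unpair z).1.zip (List.replicate (ν (unpair z).2) ())) := Poly.zip h1 hν2
    exact poly_pairBits (NPC.Poly.map (F := fun _ u => u.1) h4 (Poly.fst (Poly.snd Poly.id))) h2
  have hcwe : ∀ w u : List Bool, cw (pairBits w u) = pairBits (w.take (ν u)) u := by
    intro w u
    simp only [hcw, unpair_pairBits, U2.map_fst_zip_replicate]
  set m : Polynomial ℕ := pν + pμ.comp (2 * pν + 1 + Polynomial.X) with hm
  have hmν : ∀ u : List Bool, ν u ≤ m.eval u.length := by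
    intro u
    rw [hm, Polynomial.eval_add]
    exact (hpν u).trans (Nat.le_add_right _ _)
  have hmμ : ∀ w u : List Bool, μ (cw (pairBits w u)) ≤ m.eval u.length := by
    intro w u
    rw [hm, Polynomial.eval_add, Polynomial.eval_comp, hcwe]
    refine le_trans ?_ (Nat.le_add_left _ _)
    refine (hpμ _).trans (eval_mono _ ?_)
    rw [Pool.Agent.H620R2.Gauge.length_pairBits]
    have : (w.take (ν u)).length ≤ ν u := by simp
    have h5 := hpν u
    simp only [Polynomial.eval_add, Polynomial.eval_mul, Polynomial.eval_ofNat,
      Polynomial.eval_one, Polynomial.eval_X]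
    omega
  have hμ' : UPoly (fun z => μ (cw z)) := hμ.comp hcwP
  have hπ' : Poly (fun z => π (cw z)) := hπ.comp hcwP
  refine ⟨fun z => V (gtrunc (fun z => μ (cw z)) (fun z => π (cw z)) k z).2, m,
    hV.precomp (Poly.snd (poly_gtrunc hμ' hπ' k)), fun u => ?_⟩
  rw [hL u]
  have step : ∀ w : List Bool, (Quant (m.eval u.length)
      (fun z => V (gtrunc (fun z => μ (cw z)) (fun z => π (cw z)) k z).2) k false
        (pairBits w u) ↔
      Quant (μ (pairBits (w.take (ν u)) u)) V k false (π (pairBits (w.take (ν u)) u))) := by
    intro w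
    have h5 := quant_gtrunc (fun z => μ (cw z)) (fun z => π (cw z)) V (hmμ w u) k 0 false
      (pairBits w u) (π (cw (pairBits w u))) rfl
    rw [zero_add, hcwe] at h5
    exact h5.symm
  constructor
  · rintro ⟨w, hw, h7⟩
    refine ⟨w, hw.trans (hmν u), ?_⟩
    rw [step w, List.take_of_length_le hw]
    exact h7
  · rintro ⟨w, _, h7⟩
    rw [step w] at h7
    exact ⟨w.take (ν u), by simp, h7⟩

/-- **Upward collapse with advice.** If every language of the level `k + 1` is in the level `k`
with polynomial advice, then so is every language of the level `k + 2`. -/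
theorem upward_poly {A : Oracle} {k : ℕ} (h : ∀ L, IsSig A (k + 1) L → IsSigPoly A k L)
    (L : Set (List Bool)) (hL : IsSig A (k + 2) L) : IsSigPoly A k L := by
  obtain ⟨V, p, hV, hL⟩ := hL
  have h1 : Poly (fun z : List Bool => (unpair z).1) := Poly.fst poly_unpair
  have h2 : Poly (fun z : List Bool => (unpair z).2) := Poly.snd poly_unpair
  -- the inner part
  have hμ1 : UPoly (fun y : List Bool => p.eval (unpair y).2.length) :=
    UPoly.eval (UPoly.length h2) p
  have hπ1 : Poly (fun y : List Bool => pairBits (unpair (unpair y).1).1 (unpair y).2) :=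
    poly_pairBits (h1.comp h1) h2
  have hS1 : IsSig A (k + 1) {y | Quant (p.eval (unpair y).2.length)
      (fun z => negO (V z)) (k + 1) true (pairBits (unpair (unpair y).1).1 (unpair y).2)} :=
    isSig_of hμ1 hπ1 (isFP_post hV poly_negO) fun y => Iff.rfl
  obtain ⟨L', g, q, ⟨V1, p1, hV1, hL'⟩, hg, hL1⟩ := h _ hS1
  -- the outer part: the advice is given
  have hx : Poly (fun z : List Bool => (unpair (unpair z).2).1) := h1.comp h2
  have hH : Poly (fun z : List Bool => (unpair (unpair z).2).2) := h2.comp h2
  have hd : UPoly (fun z : List Bool =>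
      p.eval (unpair (unpair z).2).1.length - (unpair z).1.length) :=
    UPoly.of_le (Poly.sub (UPoly.eval (UPoly.length hx) p).toPoly (Poly.length h1))
      (UPoly.eval (UPoly.length hx) p) (fun z => Nat.sub_le _ _)
  set pd : List Bool → List Bool := fun z =>
    (List.replicate (p.eval (unpair (unpair z).2).1.length - (unpair z).1.length) ()).map
      (fun _ => false) with hpd
  have hpdP : Poly pd := NPC.Poly.map (F := fun _ _ => false) hd (NPC.Poly.const false)
  set π : List Bool → List Bool := fun z =>
    pairBits (pairBits (pairBits (unpair z).1 (pd z ++ pd z)) (unpair (unpair z).2).1)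
      (unpair (unpair z).2).2 with hπ
  have hπP : Poly π := poly_pairBits (poly_pairBits (poly_pairBits h1 (Poly.append hpdP hpdP))
    hx) hH
  set μ : List Bool → ℕ := fun z => p1.eval (π z).length with hμ
  have hμP : UPoly μ := UPoly.eval (UPoly.length hπP) p1
  have hν : UPoly (fun u : List Bool => p.eval (unpair u).1.length) :=
    UPoly.eval (UPoly.length h1) p
  set L2 : Set (List Bool) := {u | ∃ w : List Bool, w.length ≤ p.eval (unpair u).1.length ∧
      Quant (μ (pairBits w u)) (fun z => negO (V1 z)) k false (π (pairBits w u))} with hL2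
  have hS2 : IsSig A (k + 1) L2 :=
    isSig_ex hν hμP hπP (isFP_post hV1 poly_negO) fun u => Iff.rfl
  obtain ⟨L3, g', q', hS3, hg', hL3⟩ := h _ hS2
  -- the length of the padded strings
  set len : ℕ → ℕ := fun n => 2 * (2 * p.eval n + 1) + 1 + n with hlen
  have hπe : ∀ w x H : List Bool, w.length ≤ p.eval x.length → ∃ r : List Bool,
      π (pairBits w (pairBits x H)) = pairBits (pairBits (pairBits w r) x) H ∧
        (pairBits (pairBits w r) x).length = len x.length := by
    intro w x H hw
    refine ⟨pd (pairBits w (pairBits x H)) ++ pd (pairBits w (pairBits x H)), ?_, ?_⟩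
    · simp only [hπ, unpair_pairBits]
    · simp only [hpd, hlen, unpair_pairBits, Pool.Agent.H620R2.Gauge.length_pairBits,
        List.length_append, List.length_map, List.length_replicate]
      omega
  -- membership, when the advice is right
  have key : ∀ x : List Bool, x ∈ L ↔ pairBits x (g (len x.length)) ∈ L2 := by
    intro x
    rw [hL x]
    show (∃ w : List Bool, w.length ≤ p.eval x.length ∧
      Quant (p.eval x.length) V (k + 1) false (pairBits w x)) ↔ ∃ w : List Bool,
      w.length ≤ p.eval (unpair (pairBits x (g (len x.length)))).1.length ∧ _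
    rw [unpair_pairBits]
    refine exists_congr fun w => and_congr_right fun hw => ?_
    obtain ⟨r, hr1, hr2⟩ := hπe w x (g (len x.length)) hw
    have e1 : Quant (μ (pairBits w (pairBits x (g (len x.length))))) (fun z => negO (V1 z)) k
        false (π (pairBits w (pairBits x (g (len x.length))))) ↔
        ¬ (π (pairBits w (pairBits x (g (len x.length)))) ∈ L') := by
      rw [hL', not_quant]
      simp only [hμ, Bool.not_true]
    have e2 := hL1 (pairBits (pairBits w r) x)
    rw [hr2] at e2
    rw [e1, hr1, ← e2, Set.mem_ofPred_eq, unpair_pairBits]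
    dsimp only
    rw [unpair_pairBits]
    dsimp only
    have h6 := not_quant (p.eval x.length) V (k + 1) false (pairBits w x)
    rw [Bool.not_false] at h6
    rw [← h6, not_not]
  -- the two advice strings together
  set H : ℕ → List Bool := fun n => pairBits (g (len n)) (g' (2 * n + 1 + (g (len n)).length))
    with hHdef
  have hπ4 : Poly (fun y : List Bool => pairBits (pairBits (unpair y).1 (unpair (unpair y).2).1)
      (unpair (unpair y).2).2) := poly_pairBits (poly_pairBits h1 hx) hH
  obtain ⟨V3, p3, hV3, hL3'⟩ := hS3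
  have hμ4 : UPoly (fun y : List Bool => p3.eval (pairBits (pairBits (unpair y).1
      (unpair (unpair y).2).1) (unpair (unpair y).2).2).length) :=
    UPoly.eval (UPoly.length hπ4) p3
  have hS4 : IsSig A k {y | pairBits (pairBits (unpair y).1 (unpair (unpair y).2).1)
      (unpair (unpair y).2).2 ∈ L3} :=
    isSig_of hμ4 hπ4 hV3 fun y => hL3' _
  refine ⟨_, H, 2 * q.comp (2 * (2 * p + 1) + 1 + Polynomial.X) + 1 +
    q'.comp (2 * Polynomial.X + 1 + q.comp (2 * (2 * p + 1) + 1 + Polynomial.X)), hS4,
    fun n => ?_, fun x => ?_⟩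
  · have e1 : (2 * (2 * p + 1) + 1 + Polynomial.X).eval n = len n := by simp [hlen]
    have e2 : (g (len n)).length ≤ q.eval (len n) := hg _
    have e3 : (g' (2 * n + 1 + (g (len n)).length)).length ≤
        q'.eval (2 * n + 1 + q.eval (len n)) := (hg' _).trans (eval_mono _ (by omega))
    simp only [hHdef, Pool.Agent.H620R2.Gauge.length_pairBits]
    simp only [Polynomial.eval_add, Polynomial.eval_mul, Polynomial.eval_comp,
      Polynomial.eval_ofNat, Polynomial.eval_one, Polynomial.eval_X]
    have e1' : 2 * (2 * Polynomial.eval n p + 1) + 1 + n = len n := rfl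
    rw [e1']
    omega
  · rw [key x, hL3, Set.mem_ofPred_eq, unpair_pairBits]
    dsimp only
    rw [hHdef]
    dsimp only
    rw [unpair_pairBits]
    dsimp only
    rw [Pool.Agent.H620R2.Gauge.length_pairBits]

end Pool.Agent.J6H7.RO
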