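import Pool.Agent.J6H7.RO.Lng
import Pool.Agent.J6H7.RO.Num

/-!
# The probability that an algorithm with advice decides the hard language
-/

set_option autoImplicit false

namespace Pool.Agent.J6H7.RO

open Pool.Agent.NPC Finset H568R2 Pool.Agent.H676 Pool.Agent.H620R2.Gauge Pool.Agent.H591R3.PHG
open LangTrAux MeasureTheory Filter

/-- the oracles for which the algorithm works, with some advice -/
def Bad (e : Bool) (k : ℕ) (E : Oracle) (M : Alg) (p₁ p₂ : Polynomial ℕ) : Set Oracle :=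
  {A | ∃ h : ℕ → List Bool, (∀ n, (h n).length ≤ p₂.eval n) ∧ ∀ x, (x ∈ hard e k A E ↔
    Quant (p₁.eval (pairBits x (h x.length)).length) (outV M (join A E)) k true
      (pairBits x (h x.length)))}

theorem mem_bad {e : Bool} {k : ℕ} {A E : Oracle} (h : IsSigPoly (join A E) k (hard e k A E)) :
    ∃ M p₁ p₂, A ∈ Bad e k E M p₁ p₂ := by
  obtain ⟨L', h, p₂, ⟨V, p₁, ⟨M, hM⟩, hL'⟩, hh, hx⟩ := h
  refine ⟨M, p₁, p₂, h, hh, fun x => ?_⟩
  have hV : outV M (join A E) = V := by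
    funext y
    unfold outV
    rw [hM]
    rfl
  rw [hV, ← hL']
  exact hx x

/-- the bound for the lengths of the inputs -/
noncomputable def nh (k : ℕ) : Polynomial ℕ := 2 * Polynomial.X + Polynomial.C (k + 5)

/-- the bound for the lengths of the inputs with the advice -/
noncomputable def lh (k : ℕ) (p₂ : Polynomial ℕ) : Polynomial ℕ := 2 * nh k + 1 + p₂.comp (nh k)

/-- the bound for the lengths of the inputs with the advice and all the quantified strings -/
noncomputable def ph (k : ℕ) (p₁ p₂ : Polynomial ℕ) : Polynomial ℕ :=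
  lh k p₂ + Polynomial.C k * (2 * p₁.comp (lh k p₂) + 1)

/-- a bound for everything -/
noncomputable def rh (k : ℕ) (M : Alg) (p₁ p₂ : Polynomial ℕ) : Polynomial ℕ :=
  ph k p₁ p₂ + M.p.comp (ph k p₁ p₂) + p₂.comp (nh k) + Polynomial.C k + Polynomial.X +
    Polynomial.C 10

theorem nh_eval (k N : ℕ) : (nh k).eval N = 2 * N + (k + 5) := by
  simp [nh]

theorem lh_eval (k : ℕ) (p₂ : Polynomial ℕ) (N : ℕ) :
    (lh k p₂).eval N = 2 * (nh k).eval N + 1 + p₂.eval ((nh k).eval N) := by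
  simp [lh, Polynomial.eval_comp]

theorem ph_eval (k : ℕ) (p₁ p₂ : Polynomial ℕ) (N : ℕ) :
    (ph k p₁ p₂).eval N = (lh k p₂).eval N + k * (2 * p₁.eval ((lh k p₂).eval N) + 1) := by
  simp [ph, Polynomial.eval_comp]

theorem rh_eval (k : ℕ) (M : Alg) (p₁ p₂ : Polynomial ℕ) (N : ℕ) :
    (rh k M p₁ p₂).eval N = (ph k p₁ p₂).eval N + M.p.eval ((ph k p₁ p₂).eval N) +
      p₂.eval ((nh k).eval N) + k + N + 10 := by
  simp [rh, Polynomial.eval_comp]

theorem sum_le_of {as : List ℕ} {b : ℕ} (h : ∀ a ∈ as, a ≤ b) : as.sum ≤ b * as.length := by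
  induction as with
  | nil => simp
  | cons a as ih =>
    rw [List.sum_cons, List.length_cons, mul_add, mul_one]
    have h1 := ih fun a' ha' => h a' (List.mem_cons_of_mem _ ha')
    have h2 := h a List.mem_cons_self
    omega

theorem bad_le (p : ℕ → unitInterval) (e : Bool) (k : ℕ) (E : Oracle) (M : Alg)
    (p₁ p₂ : Polynomial ℕ) : ∃ C N₀ : ℕ, ∀ N : ℕ, N₀ ≤ N → bias e (p N) ≤ 1 / 2 →
      (N : ℝ) ^ C ≤ bias e (p N) * 2 ^ N → prob p (Bad e k E M p₁ p₂) ≤ 2 * (1 / 2) ^ N := by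
  classical
  obtain ⟨C, N₀, hC⟩ := exists_numbers k (rh k M p₁ p₂)
  refine ⟨C, N₀ + 1, fun N hN ht2 hNC => ?_⟩
  obtain ⟨u, hu, hR, hnum⟩ := hC N (by omega)
  set t₀ : ℝ := bias e (p N) with ht₀
  have ht0 : 0 < t₀ := by
    have hNpos : (0 : ℝ) < N := by exact_mod_cast (by omega : 0 < N)
    have h1 : (0 : ℝ) < (N : ℝ) ^ C := by positivity
    have h2 : (0 : ℝ) < 2 ^ N := by positivity
    by_contra h3
    push Not at h3
    have := mul_nonpos_of_nonpos_of_nonneg h3 h2.le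
    linarith
  obtain ⟨a, as, ha, hlen, has, hcore⟩ := core k hu ht0 ht2
  have hsum : as.sum ≤ 512 * u * (k + 1) := by
    rw [← hlen]
    exact sum_le_of has
  have hfit := hnum t₀ a as.sum ha hsum hNC
  -- the inputs
  set bs : List ℕ := a :: as with hbs
  have hbl : bs.length = k + 2 := by rw [hbs, List.length_cons, hlen]
  have hbsum : bs.sum = a + as.sum := by rw [hbs, List.sum_cons]
  set z : Fin (2 ^ (u + 11)) → List Bool := fun j =>
    bitsOf (u + 11) j.val ++ List.replicate (N - bs.sum - (u + 11)) false with hz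
  have hzl : ∀ j, (z j).length + bs.sum = N := by
    intro j
    simp only [hz]
    rw [List.length_append, length_bitsOf, List.length_replicate]
    omega
  have hzi : Function.Injective z := by
    intro i j hij
    simp only [hz] at hij
    have h1 := List.append_cancel_right hij
    exact Fin.ext (bitsOf_inj i.isLt j.isLt h1)
  set n₀ : ℕ := N + bs.sum + k + 5 with hn₀
  have hxl : ∀ j, (enc bs 1 (z j)).length = n₀ := by
    intro j
    rw [enc_len, hbl]
    have := hzl j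
    omega
  have hn₀' : n₀ ≤ (nh k).eval N := by
    rw [nh_eval]
    omega
  set R := (rh k M p₁ p₂).eval N with hRdef
  have hRe := rh_eval k M p₁ p₂ N
  set P := (ph k p₁ p₂).eval N with hPdef
  have hPe := ph_eval k p₁ p₂ N
  have hLe := lh_eval k p₂ N
  set c := p₂.eval n₀ with hc
  have hcc : c ≤ p₂.eval ((nh k).eval N) := eval_mono _ hn₀'
  -- the bound for one advice string
  set β : ℝ := (k : ℝ) * (2 ^ (P + 2) * (1 / 2) ^ (2 ^ (2 * u) + 1)) +
    3 * (1 / 2) ^ (2 ^ u) with hβ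
  have hβ0 : 0 ≤ β := by positivity
  have hone : ∀ w : List Bool, w.length ≤ c →
      prob p (Agree e k E M (p₁.eval (2 * n₀ + 1 + w.length)) (fun j => enc bs 1 (z j))
        (fun j => pairBits (enc bs 1 (z j)) w)) ≤ β := by
    intro w hw
    set ℓ : ℕ := 2 * n₀ + 1 + w.length with hℓ
    set m : ℕ := p₁.eval ℓ with hm
    have hℓl : ℓ ≤ (lh k p₂).eval N := by omega
    have hmm : m ≤ p₁.eval ((lh k p₂).eval N) := eval_mono _ hℓl
    have hPP : ℓ + k * (2 * m + 1) ≤ P := by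
      rw [hPdef, hPe]
      have : k * (2 * m + 1) ≤ k * (2 * p₁.eval ((lh k p₂).eval N) + 1) :=
        Nat.mul_le_mul_left _ (by omega)
      omega
    refine agree_bound p e k E M m N bs hbl z hzi hzl _ β fun A => ?_
    have h1 := hcore m ℓ (lf M (fun v : Idx (Fin (2 ^ (u + 11))) (pw bs) → Bool =>
        join (ovw (addr z bs) (fun g => sg e (v g)) A) E)) (fun y hy => by
          refine dtr_lf (smp_ovw (addr_inj z hzi (N - bs.sum) (fun j => by
            have := hzl j; omega) bs) A E (sg e)) M y ?_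
          have h2 : M.p.eval y.length ≤ M.p.eval P := eval_mono _ (hy.trans hPP)
          have h3 : 2 ^ u ≤ 2 ^ (2 * u) := Nat.pow_le_pow_right (by norm_num) (by omega)
          omega)
      (fun j => pairBits (enc bs 1 (z j)) w) (fun j => by
        rw [length_pairBits, hxl])
    refine h1.trans ?_
    rw [hβ]
    have h4 : (2 : ℝ) ^ (ℓ + k * (2 * m + 1) + 2) ≤ 2 ^ (P + 2) :=
      pow_le_pow_right₀ (by norm_num) (by omega)
    have h5 := mul_le_mul_of_nonneg_right h4
      (by positivity : (0 : ℝ) ≤ (1 / 2) ^ (2 ^ (2 * u) + 1))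
    have h6 := mul_le_mul_of_nonneg_left h5 (Nat.cast_nonneg k : (0 : ℝ) ≤ k)
    linarith
  -- the union over all the advice strings
  set S : ℕ → Set Oracle := fun i => if (str i).length ≤ c then
    Agree e k E M (p₁.eval (2 * n₀ + 1 + (str i).length)) (fun j => enc bs 1 (z j))
        (fun j => pairBits (enc bs 1 (z j)) (str i)) else ∅ with hS
  have hsub : Bad e k E M p₁ p₂ ⊆ ⋃ i ∈ Finset.range (2 ^ (c + 1)), S i := by
    rintro A ⟨h, hh, hx⟩
    have hw : (h n₀).length ≤ c := hh n₀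
    have hi : idx (h n₀) < 2 ^ (c + 1) := by
      have h1 := idx_lt (h n₀)
      have h2 : 2 ^ ((h n₀).length + 1) ≤ 2 ^ (c + 1) :=
        Nat.pow_le_pow_right (by norm_num) (by omega)
      omega
    simp only [Set.mem_iUnion, Finset.mem_range]
    refine ⟨idx (h n₀), hi, ?_⟩
    simp only [hS]
    rw [str_idx, if_pos hw]
    intro j
    have h3 := hx (enc bs 1 (z j))
    rw [hxl j, length_pairBits, hxl j] at h3
    exact h3
  have hfin : prob p (⋃ i ∈ Finset.range (2 ^ (c + 1)), S i) ≤ 2 ^ (c + 1) * β := by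
    refine (measureReal_biUnion_finset_le _ _).trans ?_
    have h1 : ∀ i ∈ Finset.range (2 ^ (c + 1)), (randomOracle p).real (S i) ≤ β := by
      intro i _
      simp only [hS]
      split_ifs with hi
      · exact hone _ hi
      · rw [measureReal_empty]
        exact hβ0
    refine (Finset.sum_le_card_nsmul _ _ _ h1).trans ?_
    rw [Finset.card_range, nsmul_eq_mul]
    push_cast
    exact le_rfl
  have hle : prob p (Bad e k E M p₁ p₂) ≤ 2 ^ (c + 1) * β :=
    (measureReal_mono hsub (measure_ne_top _ _)).trans hfin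
  refine hle.trans ?_
  exact error_le (P := P) (R := R) hu hR le_rfl (by omega)

theorem bad_null (p : ℕ → unitInterval) (e : Bool)
    (hp : ∀ c : ℕ, ∃ᶠ N : ℕ in atTop, bias e (p N) ≤ 1 / 2 ∧
      (N : ℝ) ^ c ≤ bias e (p N) * 2 ^ N) (k : ℕ) (E : Oracle) (M : Alg)
    (p₁ p₂ : Polynomial ℕ) : randomOracle p (Bad e k E M p₁ p₂) = 0 := by
  obtain ⟨C, N₀, h⟩ := bad_le p e k E M p₁ p₂
  have h0 : prob p (Bad e k E M p₁ p₂) ≤ 0 := by
    by_contra hcon
    push Not at hcon
    obtain ⟨n, hn⟩ := exists_pow_lt_of_lt_one (half_pos hcon) (by norm_num : (1 / 2 : ℝ) < 1)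
    obtain ⟨N, hN, h1, h2⟩ := (Filter.frequently_atTop.1 (hp C)) (max N₀ n)
    have h3 := h N ((le_max_left _ _).trans hN) h1 h2
    have h4 : (1 / 2 : ℝ) ^ N ≤ (1 / 2) ^ n :=
      pow_le_pow_of_le_one (by norm_num) (by norm_num) ((le_max_right _ _).trans hN)
    linarith
  have h1 : prob p (Bad e k E M p₁ p₂) = 0 := le_antisymm h0 measureReal_nonneg
  exact (measureReal_eq_zero_iff).1 h1

instance : Countable (Polynomial ℕ) := by
  have : Function.Injective (fun p : Polynomial ℕ => (p.toFinsupp.coeff : ℕ →₀ ℕ)) := by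
    intro p q h
    ext n
    exact DFunLike.congr_fun h n
  exact this.countable

/-- which side is used -/
theorem exists_side (p : ℕ → unitInterval) (hp : ∀ c : ℕ, ∃ᶠ N : ℕ in atTop,
    (N : ℝ) ^ c ≤ p N * 2 ^ N ∧ (N : ℝ) ^ c ≤ (1 - p N) * 2 ^ N) :
    ∃ e : Bool, ∀ c : ℕ, ∃ᶠ N : ℕ in atTop, bias e (p N) ≤ 1 / 2 ∧
      (N : ℝ) ^ c ≤ bias e (p N) * 2 ^ N := by
  by_contra hcon
  push Not at hcon
  obtain ⟨c₁, h1⟩ := hcon true
  obtain ⟨c₂, h2⟩ := hcon false
  have h3 := hp (max c₁ c₂)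
  refine h3 ?_
  filter_upwards [h1, h2, Filter.eventually_ge_atTop 1] with N hN1 hN2 hN3 ⟨hA, hB⟩
  have hNr : (1 : ℝ) ≤ N := by exact_mod_cast hN3
  have m1 : (N : ℝ) ^ c₁ ≤ (N : ℝ) ^ (max c₁ c₂) := pow_le_pow_right₀ hNr (le_max_left _ _)
  have m2 : (N : ℝ) ^ c₂ ≤ (N : ℝ) ^ (max c₁ c₂) := pow_le_pow_right₀ hNr (le_max_right _ _)
  rcases le_or_gt (p N : ℝ) (1 / 2) with hle | hgt
  · simp only [bias, if_true] at hN1
    exact absurd (hN1 hle) (not_lt.2 (m1.trans hA))
  · simp only [bias, Bool.false_eq_true, if_false] at hN2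
    exact absurd (hN2 (by linarith)) (not_lt.2 (m2.trans hB))

theorem ae_hard (p : ℕ → unitInterval) (hp : ∀ c : ℕ, ∃ᶠ N : ℕ in atTop,
    (N : ℝ) ^ c ≤ p N * 2 ^ N ∧ (N : ℝ) ^ c ≤ (1 - p N) * 2 ^ N) (E : Oracle) :
    ∀ᵐ A ∂(randomOracle p), ∀ k, ∃ L, IsSig (join A E) (k + 2) L ∧
      ¬ IsSigPoly (join A E) k L := by
  obtain ⟨e, he⟩ := exists_side p hp
  have h1 : ∀ᵐ A ∂(randomOracle p), ∀ (k : ℕ) (M : Alg) (p₁ p₂ : Polynomial ℕ),
      A ∉ Bad e k E M p₁ p₂ := by
    rw [ae_all_iff]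
    intro k
    rw [ae_all_iff]
    intro M
    rw [ae_all_iff]
    intro p₁
    rw [ae_all_iff]
    intro p₂
    rw [ae_iff]
    simp only [not_not]
    exact bad_null p e he k E M p₁ p₂
  filter_upwards [h1] with A hA k
  refine ⟨hard e k A E, hard_sig e k A E, fun hcon => ?_⟩
  obtain ⟨M, p₁, p₂, hM⟩ := mem_bad hcon
  exact hA k M p₁ p₂ hM

end Pool.Agent.J6H7.RO
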