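import Pool.Agent.J6H7.RO.Defs
import Pool.Agent.H628R3.RO.M1

/-!
# Random oracles: resampling finitely many bits
-/

set_option autoImplicit false

namespace Pool.Agent.J6H7.RO

open MeasureTheory Pool.Agent.NPC Pool.Agent.H620R2.Gauge Pool.Agent.H591R3.PHG H568R2
open Pool.Agent.H628R3.RO (Loc measurableSet_of_loc measurable_upd)

variable (p : ℕ → unitInterval)

/-- the probability of an event -/
noncomputable def prob (S : Set Oracle) : ℝ := (randomOracle p).real S

theorem coin_apply (q : unitInterval) (T : Set Bool) :
    coin q T = ENNReal.ofReal q * (T.indicator 1 true) +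
      ENNReal.ofReal (1 - q) * (T.indicator 1 false) := by
  have hT : MeasurableSet T := MeasurableSet.of_discrete
  simp [coin, Measure.dirac_apply' _ hT]

/-- tossing the coin of one string first -/
theorem randomOracle_eq_upd (x : List Bool) :
    ENNReal.ofReal (p x.length) •
      (randomOracle p).map (fun A : Oracle => Function.update A x true) +
      ENNReal.ofReal (1 - p x.length) •
      (randomOracle p).map (fun A : Oracle => Function.update A x false) = randomOracle p := by
  classical
  refine Measure.eq_infinitePi _ fun s t ht => ?_
  have hpi : MeasurableSet (Set.pi (s : Set (List Bool)) t) :=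
    MeasurableSet.pi s.countable_toSet fun i _ => ht i
  rw [Measure.add_apply, Measure.smul_apply, Measure.smul_apply,
    Measure.map_apply (measurable_upd x true) hpi, Measure.map_apply (measurable_upd x false) hpi]
  simp only [smul_eq_mul]
  by_cases hx : x ∈ s
  · have key : ∀ b : Bool, randomOracle p ((fun A : Oracle => Function.update A x b) ⁻¹'
        (Set.pi (s : Set (List Bool)) t)) = (t x).indicator 1 b *
          ∏ i ∈ s.erase x, coin (p i.length) (t i) := by
      intro b
      by_cases hb : b ∈ t x
      · have h1 : (fun A : Oracle => Function.update A x b) ⁻¹' (Set.pi (s : Set (List Bool)) t) =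
            Set.pi (s.erase x : Set (List Bool)) t := by
          ext A
          simp only [Set.mem_preimage, Set.mem_pi, Finset.mem_coe, Finset.mem_erase]
          constructor
          · rintro h i ⟨hi, his⟩
            have := h i his
            rwa [Function.update_of_ne hi] at this
          · intro h i his
            by_cases hi : i = x
            · subst hi; simpa using hb
            · rw [Function.update_of_ne hi]; exact h i ⟨hi, his⟩
        rw [h1, Set.indicator_of_mem hb]
        unfold randomOracle
        have h2 := Measure.infinitePi_pi (fun x : List Bool => coin (p x.length))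
          (s := s.erase x) (t := t) (fun i _ => ht i)
        simp only [Finset.coe_erase] at h2 ⊢
        rw [h2]; simp
      · have h1 : (fun A : Oracle => Function.update A x b) ⁻¹' (Set.pi (s : Set (List Bool)) t) =
            ∅ := by
          ext A
          simp only [Set.mem_preimage, Set.mem_pi, Finset.mem_coe, Set.mem_empty_iff_false,
            iff_false]
          intro h
          have := h x hx
          simp only [Function.update_self] at this
          exact hb this
        rw [h1, Set.indicator_of_notMem hb]
        simp
    rw [key true, key false, ← Finset.mul_prod_erase s _ hx, coin_apply]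
    ring
  · have key : ∀ b : Bool, (fun A : Oracle => Function.update A x b) ⁻¹'
        (Set.pi (s : Set (List Bool)) t) = Set.pi (s : Set (List Bool)) t := by
      intro b
      ext A
      simp only [Set.mem_preimage, Set.mem_pi, Finset.mem_coe]
      refine forall₂_congr fun i hi => ?_
      have : i ≠ x := fun h => hx (h ▸ hi)
      rw [Function.update_of_ne this]
    have h0 : (0 : ℝ) ≤ p x.length := (p x.length).2.1
    have h1 : (0 : ℝ) ≤ 1 - p x.length := by linarith [(p x.length).2.2]
    rw [key true, key false, ← add_mul, ← ENNReal.ofReal_add h0 h1]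
    rw [show ((p x.length : unitInterval) : ℝ) + (1 - (p x.length : unitInterval)) = 1 by ring,
      ENNReal.ofReal_one, one_mul]
    unfold randomOracle
    exact Measure.infinitePi_pi (fun x : List Bool => coin (p x.length)) (s := s) (t := t)
      (fun i _ => ht i)

theorem prob_split (x : List Bool) {S : Set Oracle} (hS : MeasurableSet S) :
    prob p S = ber (p x.length) true * prob p {A | Function.update A x true ∈ S} +
      ber (p x.length) false * prob p {A | Function.update A x false ∈ S} := by
  have h1 : randomOracle p S =
      ENNReal.ofReal (p x.length) * randomOracle p {A | Function.update A x true ∈ S} +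
      ENNReal.ofReal (1 - p x.length) *
        randomOracle p {A | Function.update A x false ∈ S} := by
    conv_lhs => rw [← randomOracle_eq_upd p x]
    rw [Measure.add_apply, Measure.smul_apply, Measure.smul_apply,
      Measure.map_apply (measurable_upd x true) hS,
      Measure.map_apply (measurable_upd x false) hS]
    rfl
  have h0 : (0 : ℝ) ≤ p x.length := (p x.length).2.1
  have h2 : (0 : ℝ) ≤ 1 - p x.length := by linarith [(p x.length).2.2]
  simp only [prob, measureReal_def, h1]
  rw [ENNReal.toReal_add (by finiteness) (by finiteness), ENNReal.toReal_mul, ENNReal.toReal_mul,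
    ENNReal.toReal_ofReal h0, ENNReal.toReal_ofReal h2]
  simp [ber]

/-- the oracle `A` overwritten on `J` -/
def ow (J T : Finset (List Bool)) (A : Oracle) : Oracle := fun x =>
  if x ∈ J then decide (x ∈ T) else A x

theorem measurable_ow (J T : Finset (List Bool)) : Measurable (ow J T) := by
  refine measurable_pi_lambda _ fun y => ?_
  unfold ow
  by_cases hy : y ∈ J
  · simp only [if_pos hy]
    exact measurable_const
  · simp only [if_neg hy]
    exact measurable_pi_apply _

theorem prob_resample {S : Set Oracle} (hS : MeasurableSet S) (J : Finset (List Bool)) :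
    prob p S = ∑ T ∈ J.powerset, (∏ x ∈ J, ber (p x.length) (decide (x ∈ T))) *
      prob p {A | ow J T A ∈ S} := by
  classical
  induction J using Finset.induction_on with
  | empty =>
    have h : {A | ow ∅ ∅ A ∈ S} = S := by
      ext A
      have : ow ∅ ∅ A = A := by funext y; simp [ow]
      show ow ∅ ∅ A ∈ S ↔ A ∈ S
      rw [this]
    simp [h]
  | insert x J hx ih =>
    rw [ih, Finset.sum_powerset_insert hx, ← Finset.sum_add_distrib]
    refine Finset.sum_congr rfl fun T hT => ?_
    rw [Finset.mem_powerset] at hT
    have hxT : x ∉ T := fun h => hx (hT h)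
    have hm : MeasurableSet {A | ow J T A ∈ S} := measurable_ow J T hS
    rw [prob_split p x hm]
    have e1 : {A | Function.update A x true ∈ {A | ow J T A ∈ S}} =
        {A | ow (insert x J) (insert x T) A ∈ S} := by
      ext A
      have : ow J T (Function.update A x true) = ow (insert x J) (insert x T) A := by
        funext y
        unfold ow
        by_cases hy : y = x
        · subst hy
          simp [hx]
        · simp [hy]
      show ow J T (Function.update A x true) ∈ S ↔ _
      rw [this]
      rfl
    have e2 : {A | Function.update A x false ∈ {A | ow J T A ∈ S}} =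
        {A | ow (insert x J) T A ∈ S} := by
      ext A
      have : ow J T (Function.update A x false) = ow (insert x J) T A := by
        funext y
        unfold ow
        by_cases hy : y = x
        · subst hy
          simp [hx, hxT]
        · simp [hy]
      show ow J T (Function.update A x false) ∈ S ↔ _
      rw [this]
      rfl
    rw [e1, e2, Finset.prod_insert hx, Finset.prod_insert hx]
    have e3 : ∏ y ∈ J, ber (p y.length) (decide (y ∈ insert x T)) =
        ∏ y ∈ J, ber (p y.length) (decide (y ∈ T)) := by
      refine Finset.prod_congr rfl fun y hy => ?_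
      have : y ≠ x := fun h => hx (h ▸ hy)
      simp [this]
    rw [e3]
    simp only [hxT, Finset.mem_insert_self, decide_true, decide_false]
    ring

open Classical in
/-- the oracle `A` overwritten at the positions `pos` -/
noncomputable def ovw {I : Type} (pos : I → List Bool) (ω : I → Bool) (A : Oracle) : Oracle :=
  fun x => if h : ∃ i, pos i = x then ω h.choose else A x

theorem ovw_pos {I : Type} {pos : I → List Bool} (hpos : Function.Injective pos) (ω : I → Bool)
    (A : Oracle) (i : I) : ovw pos ω A (pos i) = ω i := by
  unfold ovw
  have h : ∃ i', pos i' = pos i := ⟨i, rfl⟩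
  rw [dif_pos h]
  exact congrArg ω (hpos h.choose_spec)

theorem ovw_off {I : Type} {pos : I → List Bool} (ω : I → Bool) (A : Oracle) {x : List Bool}
    (hx : ∀ i, pos i ≠ x) : ovw pos ω A x = A x := by
  unfold ovw
  rw [dif_neg]
  push Not
  exact hx

theorem ovw_eq {I : Type} [Fintype I] [DecidableEq I] {pos : I → List Bool}
    (hpos : Function.Injective pos) (ω : I → Bool) (A : Oracle) :
    ow (Finset.univ.image pos) ((Finset.univ.filter fun i => ω i = true).image pos) A =
      ovw pos ω A := by
  funext x
  by_cases hx : ∃ i, pos i = x
  · obtain ⟨i, rfl⟩ := hx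
    rw [ovw_pos hpos]
    unfold ow
    rw [if_pos (Finset.mem_image_of_mem _ (Finset.mem_univ _))]
    have h1 : pos i ∈ (Finset.univ.filter fun i => ω i = true).image pos ↔ ω i = true := by
      rw [Finset.mem_image]
      constructor
      · rintro ⟨i', h1, h2⟩
        rw [← hpos h2]
        exact (Finset.mem_filter.1 h1).2
      · intro h
        exact ⟨i, Finset.mem_filter.2 ⟨Finset.mem_univ _, h⟩, rfl⟩
    cases h : ω i
    · rw [decide_eq_false_iff_not, h1, h]
      simp
    · rw [decide_eq_true_eq, h1, h]
  · have hx' : ∀ i, pos i ≠ x := fun i hi => hx ⟨i, hi⟩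
    rw [ovw_off ω A hx']
    unfold ow
    rw [if_neg]
    rw [Finset.mem_image]
    rintro ⟨i, _, hi⟩
    exact hx' i hi

theorem measurable_ovw {I : Type} [Fintype I] [DecidableEq I] {pos : I → List Bool}
    (hpos : Function.Injective pos) (ω : I → Bool) : Measurable (ovw pos ω) := by
  have : ovw pos ω = ow (Finset.univ.image pos)
      ((Finset.univ.filter fun i => ω i = true).image pos) :=
    funext fun A => (ovw_eq hpos ω A).symm
  rw [this]
  exact measurable_ow _ _

theorem prob_ovw {I : Type} [Fintype I] [DecidableEq I] {pos : I → List Bool}
    (hpos : Function.Injective pos) {N : ℕ} (hN : ∀ i, (pos i).length = N) {S : Set Oracle}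
    (hS : MeasurableSet S) :
    prob p S = Ex (ber (p N)) (fun ω : I → Bool => prob p {A | ovw pos ω A ∈ S}) := by
  classical
  rw [prob_resample p hS (Finset.univ.image pos)]
  unfold Ex
  symm
  refine Finset.sum_bij' (fun ω _ => (Finset.univ.filter fun i => ω i = true).image pos)
    (fun T _ => fun i => decide (pos i ∈ T)) ?_ ?_ ?_ ?_ ?_
  · intro ω _
    rw [Finset.mem_powerset]
    exact Finset.image_subset_image (Finset.subset_univ _)
  · intro T _
    exact Finset.mem_univ _
  · intro ω _
    funext i
    have h1 : pos i ∈ (Finset.univ.filter fun i => ω i = true).image pos ↔ ω i = true := by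
      rw [Finset.mem_image]
      constructor
      · rintro ⟨i', h1, h2⟩
        rw [← hpos h2]
        exact (Finset.mem_filter.1 h1).2
      · intro h
        exact ⟨i, Finset.mem_filter.2 ⟨Finset.mem_univ _, h⟩, rfl⟩
    show decide _ = ω i
    cases h : ω i
    · rw [decide_eq_false_iff_not, h1, h]
      simp
    · rw [decide_eq_true_eq, h1, h]
  · intro T hT
    rw [Finset.mem_powerset] at hT
    ext x
    rw [Finset.mem_image]
    constructor
    · rintro ⟨i, h1, rfl⟩
      simpa using (Finset.mem_filter.1 h1).2
    · intro hx
      obtain ⟨i, _, hi⟩ := Finset.mem_image.1 (hT hx)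
      exact ⟨i, Finset.mem_filter.2 ⟨Finset.mem_univ _, by simpa [hi] using hx⟩, hi⟩
  · intro ω _
    rw [Finset.prod_image (fun i _ j _ h => hpos h)]
    congr 1
    · refine Finset.prod_congr rfl fun i _ => ?_
      rw [hN i]
      congr 1
      have h1 : pos i ∈ (Finset.univ.filter fun i => ω i = true).image pos ↔ ω i = true := by
        rw [Finset.mem_image]
        constructor
        · rintro ⟨i', h1, h2⟩
          rw [← hpos h2]
          exact (Finset.mem_filter.1 h1).2
        · intro h
          exact ⟨i, Finset.mem_filter.2 ⟨Finset.mem_univ _, h⟩, rfl⟩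
      cases h : ω i
      · symm
        rw [decide_eq_false_iff_not, h1, h]
        simp
      · symm
        rw [decide_eq_true_eq, h1, h]
    · refine congrArg (prob p) (Set.ext fun A => ?_)
      show _ ↔ ow _ _ A ∈ S
      rw [ovw_eq hpos]
      rfl

open Classical in
/-- conditional probabilities -/
theorem prob_le_of_ovw {I : Type} [Fintype I] [DecidableEq I] {pos : I → List Bool}
    (hpos : Function.Injective pos) {N : ℕ} (hN : ∀ i, (pos i).length = N) {S : Set Oracle}
    (hS : MeasurableSet S) {β : ℝ}
    (h1 : ∀ A, Ex (ber (p N))
      (fun ω : I → Bool => if ovw pos ω A ∈ S then (1 : ℝ) else 0) ≤ β) :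
    prob p S ≤ β := by
  rw [prob_ovw p hpos hN hS]
  unfold Ex
  have e1 : ∀ ω : I → Bool, prob p {A | ovw pos ω A ∈ S} =
      ∫ A, (if ovw pos ω A ∈ S then (1 : ℝ) else 0) ∂(randomOracle p) := by
    intro ω
    have hm : MeasurableSet {A | ovw pos ω A ∈ S} := measurable_ovw hpos ω hS
    have h2 := integral_indicator_one (μ := randomOracle p) hm
    rw [prob, ← h2]
    refine integral_congr_ae (Filter.Eventually.of_forall fun A => ?_)
    show Set.indicator _ _ A = _
    rw [Set.indicator_apply]
    rfl
  have hint : ∀ ω : I → Bool, Integrable
      (fun A => (if ovw pos ω A ∈ S then (1 : ℝ) else 0)) (randomOracle p) := by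
    intro ω
    have hm : MeasurableSet {A | ovw pos ω A ∈ S} := measurable_ovw hpos ω hS
    have h2 : Integrable (Set.indicator {A | ovw pos ω A ∈ S} (1 : Oracle → ℝ))
        (randomOracle p) := (integrable_const (1 : ℝ)).indicator hm
    refine h2.congr (Filter.Eventually.of_forall fun A => ?_)
    show Set.indicator _ _ A = _
    rw [Set.indicator_apply]
    rfl
  have e2 : ∑ ω : I → Bool, (∏ i, ber (p N) (ω i)) * prob p {A | ovw pos ω A ∈ S} =
      ∫ A, ∑ ω : I → Bool, (∏ i, ber (p N) (ω i)) *
        (if ovw pos ω A ∈ S then (1 : ℝ) else 0) ∂(randomOracle p) := by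
    rw [integral_finsetSum _ fun ω _ => (hint ω).const_mul _]
    refine Finset.sum_congr rfl fun ω _ => ?_
    rw [integral_const_mul, e1]
  rw [e2]
  calc _ ≤ ∫ _A : Oracle, β ∂(randomOracle p) := by
        refine integral_mono_ae ?_ (integrable_const β) (Filter.Eventually.of_forall fun A => ?_)
        · exact integrable_finsetSum _ fun ω _ => (hint ω).const_mul _
        · exact h1 A
    _ = β := by simp

end Pool.Agent.J6H7.RO
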