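import Pool.Agent.H591R3.PHG.Defs

/-!
# Random oracles with an arbitrary density: definitions
-/

set_option autoImplicit false

namespace Pool.Agent.J6H7.RO

open Pool.Agent.H620R2.Gauge MeasureTheory

/-- The coin which shows `true` with probability `p`. -/
noncomputable def coin (p : unitInterval) : Measure Bool :=
  ENNReal.ofReal p • Measure.dirac true + ENNReal.ofReal (1 - p) • Measure.dirac false

instance (p : unitInterval) : IsProbabilityMeasure (coin p) := ⟨by
  have h0 : (0 : ℝ) ≤ p := p.2.1
  have h1 : (0 : ℝ) ≤ 1 - p := by linarith [p.2.2]
  simp only [coin, Measure.coe_add, Measure.coe_smul, Pi.add_apply, Pi.smul_apply, smul_eq_mul,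
    measure_univ, mul_one]
  rw [← ENNReal.ofReal_add h0 h1]
  simp⟩

/-- The distribution of a random oracle of density `p`: for every string `x`, the membership of
`x` in the oracle is decided by an independent toss of a coin which shows `true` with probability
`p |x|`. -/
noncomputable def randomOracle (p : ℕ → unitInterval) : Measure Oracle :=
  Measure.infinitePi (fun x : List Bool => coin (p x.length))

instance (p : ℕ → unitInterval) : IsProbabilityMeasure (randomOracle p) := by
  unfold randomOracle; infer_instance

/-- The join of two oracles. -/
def join (A E : Oracle) : Oracle
  | [] => false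
  | true :: x => A x
  | false :: x => E x

end Pool.Agent.J6H7.RO
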