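import Pool.Agent.J6H7.RO.Defs
import Pool.Agent.H620R2.Gauge.Dt

/-!
# Oracle algorithms are shallow decision trees; alternating quantifiers
-/

set_option autoImplicit false

namespace Pool.Agent.J6H7.RO

open Pool.Agent.NPC Finset H568R2 Pool.Agent.H676 Pool.Agent.H620R2.Gauge Pool.Agent.H591R3.PHG

/-- every bit of the oracle depends on at most one coordinate -/
def Smp {I : Type} (O : (I → Bool) → Oracle) : Prop :=
  ∀ q, (∃ c, ∀ z, O z q = c) ∨ ∃ (i : I) (φ : Bool → Bool), ∀ z, O z q = φ (z i)

theorem dtr_run {I : Type} [Fintype I] [DecidableEq I] {O : (I → Bool) → Oracle} (hO : Smp O)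
    (M : Alg) (y : List Bool) : ∀ (n : ℕ) (acc : List Bool),
    DTr n (fun z : I → Bool => decide (M.run (O z) y n acc = some [true])) := by
  intro n
  induction n with
  | zero =>
    intro acc
    exact ⟨false, fun a => by simp [Alg.run]⟩
  | succ n ih =>
    intro acc
    rcases hq : M.D (pairBits y acc) with _ | ⟨c, q⟩
    · exact DTr.const ⟨false, fun a => by simp [Alg.run, hq]⟩
    · cases c with
      | true => exact DTr.const ⟨decide (q = [true]), fun a => by simp [Alg.run, hq]⟩
      | false =>
        rcases hO q with ⟨c, hc⟩ | ⟨i, φ, hφ⟩
        · have h2 : (fun z : I → Bool => decide (M.run (O z) y (n + 1) acc =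
              some [true])) = fun z => decide (M.run (O z) y n (acc ++ [c]) =
              some [true]) := by
            funext z
            simp only [Alg.run, hq, hc]
          rw [h2]
          exact (ih (acc ++ [c])).succ
        · refine Or.inr ⟨i, fun b => ?_⟩
          have h1 := DTr_update (ih (acc ++ [φ b])) i b
          have h2 : (fun z : I → Bool => decide (M.run (O (Function.update z
              i b)) y (n + 1) acc = some [true])) = fun z => decide (M.run (O
              (Function.update z i b)) y n (acc ++ [φ b]) = some [true]) := by
            funext z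
            simp only [Alg.run, hq, hφ, Function.update_self]
          rw [h2]
          exact h1

theorem DTr_mono {I : Type} {k l : ℕ} (hkl : k ≤ l) {f : (I → Bool) → Bool} [Fintype I]
    [DecidableEq I] (h : DTr k f) : DTr l f := by
  induction l, hkl using Nat.le_induction with
  | base => exact h
  | succ l _ ih => exact ih.succ

/-- the output of an algorithm, `[]` if it does not stop -/
def outV (M : Alg) (O : Oracle) (y : List Bool) : List Bool := (M.out O y).getD []

theorem outV_eq (M : Alg) (O : Oracle) (y : List Bool) :
    outV M O y = [true] ↔ M.out O y = some [true] := by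
  unfold outV
  rcases M.out O y with _ | z
  · simp
  · simp

/-- the leaf functions -/
def lf {I : Type} (M : Alg) (O : (I → Bool) → Oracle) (y : List Bool) (z : I → Bool) : Bool :=
  decide (M.out (O z) y = some [true])

theorem dtr_lf {I : Type} [Fintype I] [DecidableEq I] {O : (I → Bool) → Oracle} (hO : Smp O)
    (M : Alg) (y : List Bool) {r : ℕ} (hr : M.p.eval y.length ≤ r) : DTr r (lf M O y) :=
  DTr_mono hr (dtr_run hO M y _ [])

theorem quant_lf {I : Type} (M : Alg) (O : (I → Bool) → Oracle) (m : ℕ) (z : I → Bool) :
    ∀ (k : ℕ) (b : Bool) (y : List Bool),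
      (Quant m (outV M (O z)) k b y ↔ QF m (lf M O) k b y z = true) := by
  intro k
  induction k with
  | zero =>
    intro b y
    simp only [Quant, QF, lf, decide_eq_true_eq]
    exact outV_eq M (O z) y
  | succ k ih =>
    intro b y
    cases b with
    | true =>
      simp only [Quant, QF, decide_eq_true_eq]
      exact exists_congr fun w => and_congr_right fun hw => ih false _
    | false =>
      simp only [Quant, QF, decide_eq_true_eq]
      exact forall_congr' fun w => forall_congr' fun hw => ih true _

/-- a bijective change of the values -/
theorem Ex_perm {I V : Type} [Fintype I] [DecidableEq I] [Fintype V] (σ : V ≃ V) (law : V → ℝ)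
    (Φ : (I → V) → ℝ) :
    Ex law Φ = Ex (fun v => law (σ v)) (fun z => Φ (fun i => σ (z i))) := by
  unfold Ex
  rw [← (Equiv.piCongrRight fun _ : I => σ).sum_comp]
  rfl

end Pool.Agent.J6H7.RO
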