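import Pool.Agent.H591R3.PHG.Main

/-!
# The average-case hierarchy with leaves of an arbitrary bias
-/

set_option autoImplicit false

namespace Pool.Agent.J6H7.RO

open Finset H568R2 Pool.Agent.H676 Pool.Agent.H620R2.Gauge Pool.Agent.NPC Pool.Agent.H591R3.PHG
open LawAux

/-- the first level, for leaves of an arbitrary bias -/
theorem nxt_law0' {w : ℕ} {t₀ t' : ℝ} (h0 : 0 < t₀) (h1 : t₀ < 1) (hw : 1 ≤ w)
    (ht' : 0 < t') :
    nxt t₀ t' 0 w w law0 none = (1 - t₀) ^ w / t' ∧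
      nxt t₀ t' 0 w w law0 (some true) = 0 := by
  have h1' : ∀ v, nxt t₀ t' 0 w w law0 v = K t₀ t' 0 w (fun _ : Fin w => none) v := by
    intro v
    rw [nxt_eq, Finset.sum_eq_single (fun _ : Fin w => (none : Option Bool))]
    · have h0 : ∏ i : Fin w, law0 ((fun _ : Fin w => (none : Option Bool)) i) = 1 :=
        Finset.prod_eq_one fun i _ => if_pos rfl
      rw [h0, one_mul]
    · intro σ _ hσ
      have h2 : ∃ i, σ i ≠ none := by
        by_contra h3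
        push Not at h3
        exact hσ (funext h3)
      obtain ⟨i, hi⟩ := h2
      rw [Finset.prod_eq_zero (Finset.mem_univ i) (if_neg hi), zero_mul]
    · intro h
      exact absurd (Finset.mem_univ _) h
  have h2 : live (fun _ : Fin w => (none : Option Bool)) = univ :=
    Finset.filter_true_of_mem fun _ _ => rfl
  have h3 : Act w (fun _ : Fin w => (none : Option Bool)) := by
    refine ⟨fun i h => by simp at h, ?_⟩
    rw [h2, Finset.card_univ, Fintype.card_fin]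
  rw [h1', h1', K_act_none h0 h1 hw h3, K_act_true h3]
  unfold pz
  rw [h2, Finset.card_univ, Fintype.card_fin]
  constructor
  · norm_num
  · ring

theorem inv_of' {n : ℕ} {law : Option Bool → ℝ} {q : ℝ} (h0 : ∀ v, 0 ≤ law v)
    (h1 : ∑ v, law v = 1) (h2 : law none = q / (1 / 2 ^ (4 * n)))
    (h3 : law (some true) = 0) (hq1 : Real.exp (-(36 * n)) ≤ q) (hq2 : q ≤ 1 / 2 ^ (8 * n)) :
    Inv n law := by
  have h4 : law none / 2 ^ (4 * n) + law (some true) = q := by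
    rw [h2, h3]
    field_simp
    ring
  refine ⟨h0, h1, ?_, ?_, ?_⟩
  · rw [h4, h3]
    have : 0 < q := (Real.exp_pos _).trans_le hq1
    positivity
  · rw [h4]; exact hq1
  · rw [h4]; exact hq2

theorem inv_start' {n w : ℕ} (hn : 5 ≤ n) {t₀ : ℝ} (ht0 : 0 < t₀) (ht1 : t₀ < 1) (hw : 1 ≤ w)
    (hq1 : Real.exp (-(36 * n)) ≤ (1 - t₀) ^ w) (hq2 : (1 - t₀) ^ w ≤ 1 / 2 ^ (8 * n)) :
    Inv n (nxt t₀ (1 / 2 ^ (4 * n)) 0 w w law0) := by
  have h0 : ∀ v, (0 : ℝ) ≤ law0 v := by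
    intro v; unfold law0; split_ifs <;> norm_num
  have h1 : ∑ v, law0 v = 1 := by
    unfold law0
    rw [Finset.sum_ite_eq']
    simp
  have hT : (0 : ℝ) < 1 / 2 ^ (4 * n) := by positivity
  obtain ⟨h2, h3⟩ := nxt_law0' ht0 ht1 hw hT
  refine inv_of' (fun v => ?_) ?_ h2 h3 hq1 hq2
  · refine nxt_nonneg ht0 ht1 hT le_rfl zero_le_one hw ?_ h0 v
    rw [sub_zero, one_mul, zero_mul, add_zero, div_le_one (by positivity)]
    refine hq2.trans ?_
    apply one_div_le_one_div_of_le (by positivity)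
    exact pow_le_pow_right₀ (by norm_num) (by omega)
  · exact nxt_sum ht0 ht1 hT hw h1

/-- all levels, and the level of the random bits -/
theorem main_leaf' {X : Type} [Fintype X] [DecidableEq X] {n u D g w : ℕ} (hn : 5 ≤ n)
    (hu : 8 * u ≤ n) (hD : 2 ^ (2 * u) * Fintype.card X ≤ D) (k : ℕ) (cs : List ℕ)
    (hcs : cs.length = k + 1) {t₀ : ℝ} (ht0 : 0 < t₀) (ht1 : t₀ < 1) (hw : 1 ≤ w)
    (hq2 : (1 - t₀) ^ w ≤ 1 / 2 ^ (8 * n)) (m ℓ : ℕ)
    (F : List Bool → (Idx X (w :: cs) → Bool) → Bool)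
    (hF : ∀ y : List Bool, y.length ≤ ℓ + k * (2 * m + 1) → DTr (2 ^ (2 * u)) (F y))
    (y : X → List Bool) (hy : ∀ j, (y j).length ≤ ℓ) (b : Bool) :
    Ms t₀ (w :: cs) (fun _ => none) (fun j => QF m F k b (y j)) ≤
      k * (2 ^ (ℓ + k * (2 * m + 1) + 2) * (1 / 2) ^ (2 ^ (2 * u) + 1)) +
      (1 - 1 / 256) ^ g * (1 + 2 * (1 / 2 ^ (4 * n))) ^ D +
      Ex (nxt t₀ (1 / 2 ^ (4 * n)) 0 w w law0)
        (Wt (X := X) (1 / 2 ^ (4 * n)) (1 / 2 ^ (2 * n)) (8 * n * 2 ^ (4 * n)) (1 / 256) D g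
          cs) := by
  classical
  set t : ℝ := 1 / 2 ^ (4 * n) with ht
  have ht0' : 0 < t := by positivity
  have hpow : (1 - t₀ : ℝ) ^ w / t ≤ 1 := by
    rw [ht, div_le_one (by positivity)]
    refine hq2.trans ?_
    apply one_div_le_one_div_of_le (by positivity)
    exact pow_le_pow_right₀ (by norm_num) (by omega)
  have hcond : (1 - 0) * (1 - t₀ : ℝ) ^ w / t + 0 * (1 - t₀ : ℝ) ^ w ≤ 1 := by
    rw [zero_mul, add_zero, sub_zero, one_mul]
    exact hpow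
  set s0 : Idx X (w :: cs) → Option Bool := fun _ => none with hs0
  rw [Ms_stage (t := t₀) (t' := t) (ξ := 0) (smin := w) ht0 ht1 ht0' hw cs s0]
  set E : ℝ := k * (2 ^ (ℓ + k * (2 * m + 1) + 2) * (1 / 2) ^ (2 ^ (2 * u) + 1)) +
      (1 - 1 / 256) ^ g * (1 + 2 * t) ^ D with hE
  set W := Wt (X := X) t (1 / 2 ^ (2 * n)) (8 * n * 2 ^ (4 * n)) (1 / 256) D g cs with hW
  have hterm : ∀ ρ : Idx X cs → St w,
      wt (G := Idx X cs) t₀ t 0 w s0 ρ *
        Ms t cs (fun h => (ρ h).1) (fun j z => QF m F k b (y j) (XX (G := Idx X cs) s0 ρ z)) ≤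
      wt (G := Idx X cs) t₀ t 0 w s0 ρ * E +
        wt (G := Idx X cs) t₀ t 0 w s0 ρ * W (fun h => (ρ h).1) := by
    intro ρ
    rw [← mul_add]
    apply mul_le_mul_of_nonneg_left _
      (wt_nonneg ht0 ht1 ht0' le_rfl zero_le_one hw hcond s0 ρ)
    have h5 := main_ind hn hu hD k cs hcs (fun h => (ρ h).1) m ℓ
      (fun y' z => F y' (XX (G := Idx X cs) s0 ρ z))
      (fun y' hy' => DTr_XX (G := Idx X cs) s0 ρ (hF y' hy')) y hy b (g := g)
    refine le_trans (le_of_eq ?_) h5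
    congr 1
    funext j z
    rw [QF_comp m F (XX (G := Idx X cs) s0 ρ)]
  refine (Finset.sum_le_sum fun ρ _ => hterm ρ).trans ?_
  rw [Finset.sum_add_distrib, ← Finset.sum_mul,
    wt_sum ht0 ht1 ht0' hw s0, one_mul]
  have h8 := law_stage (G := Idx X cs) (c := w) (smin := w) (t := t₀) (t' := t) (ξ := 0)
    law0 W
  rw [Ex_law0] at h8
  rw [← h8]
  exact le_of_eq rfl

/-- the number of the children at the level of the leaves -/
theorem exists_width {n : ℕ} (hn : 5 ≤ n) {t₀ : ℝ} (ht0 : 0 < t₀) (ht2 : t₀ ≤ 1 / 2) :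
    ∃ a : ℕ, 2 ^ a * t₀ < 12 * n ∧ Real.exp (-(36 * n)) ≤ (1 - t₀) ^ (2 ^ a) ∧
      (1 - t₀) ^ (2 ^ a) ≤ 1 / 2 ^ (8 * n) := by
  have hn' : (5 : ℝ) ≤ n := by exact_mod_cast hn
  have hex : ∃ a : ℕ, (6 * n : ℝ) ≤ 2 ^ a * t₀ := by
    obtain ⟨a, ha⟩ := pow_unbounded_of_one_lt ((6 * n) / t₀) (by norm_num : (1 : ℝ) < 2)
    exact ⟨a, by rw [div_lt_iff₀ ht0] at ha; exact ha.le⟩
  classical
  have hs := Nat.find_spec hex
  have hm := fun m hm => Nat.find_min hex (m := m) hm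
  set a := Nat.find hex with ha
  have ha1 : 1 ≤ a := by
    rcases Nat.eq_zero_or_pos a with h0 | h0
    · rw [h0] at hs
      simp only [pow_zero, one_mul] at hs
      linarith
    · exact h0
  obtain ⟨b, hb⟩ : ∃ b, a = b + 1 := ⟨a - 1, by omega⟩
  have hb2 : (2 : ℝ) ^ b * t₀ < 6 * n := by
    have := hm b (by omega)
    exact not_le.mp this
  have h2a : (2 : ℝ) ^ a * t₀ < 12 * n := by
    rw [hb, pow_succ]; nlinarith
  refine ⟨a, h2a, ?_, ?_⟩
  · -- `1 - t ≥ exp (-2 t)` for `t ≤ 1/2`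
    have h1 : Real.exp (-(2 * t₀)) ≤ 1 - t₀ := by
      have h2 : Real.exp (-(2 * t₀)) = (Real.exp (2 * t₀))⁻¹ := Real.exp_neg _
      have h3 : 1 + 2 * t₀ ≤ Real.exp (2 * t₀) := by
        have := Real.add_one_le_exp (2 * t₀)
        linarith
      rw [h2]
      have h4 : (Real.exp (2 * t₀))⁻¹ ≤ (1 + 2 * t₀)⁻¹ := by
        apply inv_anti₀ (by positivity) h3
      refine h4.trans ?_
      rw [inv_le_iff_one_le_mul₀ (by positivity)]
      nlinarith
    have h5 : (Real.exp (-(2 * t₀))) ^ (2 ^ a) ≤ (1 - t₀) ^ (2 ^ a) :=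
      pow_le_pow_left₀ (Real.exp_pos _).le h1 _
    refine le_trans ?_ h5
    rw [← Real.exp_nat_mul]
    apply Real.exp_le_exp.mpr
    push_cast
    nlinarith
  · have h1 := one_sub_pow_le_exp (x := t₀) (by linarith) (2 ^ a)
    refine h1.trans ?_
    have h2 : Real.exp (-(((2 ^ a : ℕ) : ℝ) * t₀)) ≤ Real.exp (-(6 * n)) := by
      apply Real.exp_le_exp.mpr
      push_cast
      linarith
    refine h2.trans ?_
    have h3 : Real.exp (-(6 * n)) = 1 / (Real.exp 6) ^ n := by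
      rw [← Real.exp_nat_mul, Real.exp_neg, mul_comm (n : ℝ) 6]; simp
    rw [h3, pow_mul]
    apply one_div_le_one_div_of_le (by positivity)
    apply pow_le_pow_left₀ (by positivity)
    have h := Real.exp_one_gt_d9
    have h0 : Real.exp 6 = (Real.exp 1) ^ 6 := by
      rw [← Real.exp_nat_mul]; norm_num
    rw [h0]
    calc (2 : ℝ) ^ 8 ≤ 2.7182818283 ^ 6 := by norm_num
      _ ≤ (Real.exp 1) ^ 6 := pow_le_pow_left₀ (by norm_num) h.le 6

/-- **The average-case hierarchy, leaves of an arbitrary bias.** -/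
theorem core (k : ℕ) {u : ℕ} (hu : 1 ≤ u) {t₀ : ℝ} (ht0 : 0 < t₀) (ht2 : t₀ ≤ 1 / 2) :
    ∃ (a : ℕ) (as : List ℕ), 2 ^ a * t₀ < 96 * u ∧ as.length = k + 1 ∧
      (∀ a ∈ as, a ≤ 512 * u) ∧
      ∀ (m ℓ : ℕ) (F : List Bool → (Idx (Fin (2 ^ (u + 11))) (2 ^ a :: pw as) → Bool) → Bool),
        (∀ y : List Bool, y.length ≤ ℓ + k * (2 * m + 1) → DTr (2 ^ (2 * u)) (F y)) →
        ∀ y : Fin (2 ^ (u + 11)) → List Bool, (∀ j, (y j).length ≤ ℓ) →
          Ms t₀ (2 ^ a :: pw as) (fun _ => none) (fun j => QF m F k true (y j)) ≤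
            (k : ℝ) * (2 ^ (ℓ + k * (2 * m + 1) + 2) * (1 / 2) ^ (2 ^ (2 * u) + 1)) +
              3 * (1 / 2) ^ (2 ^ u) := by
  classical
  have hn : 5 ≤ 8 * u := by omega
  have hu8 : 8 * u ≤ 8 * u := le_rfl
  have ht1 : t₀ < 1 := by linarith
  obtain ⟨a, ha1, ha2, ha3⟩ := exists_width hn ht0 ht2
  have hw : 1 ≤ 2 ^ a := Nat.one_le_two_pow
  have hinv := inv_start' hn ht0 ht1 hw ha2 ha3
  obtain ⟨as, h1, h2, h3⟩ := exists_sizes hn k _ hinv
  refine ⟨a, as, ?_, h1, fun a' ha' => ?_, ?_⟩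
  · refine ha1.trans_le (le_of_eq ?_)
    push_cast
    ring
  · have := h2 a' ha'
    omega
  have h4 := h3 (Fin (2 ^ (u + 11))) (2 ^ (3 * u + 11)) (2 ^ (u + 9)) (by
      have e : (16 : ℕ) = 2 ^ 4 := by norm_num
      rw [e, ← pow_add]
      exact Nat.pow_le_pow_right (by norm_num) (by omega)) (by
      rw [Fintype.card_fin]
      have e : (4 : ℕ) = 2 ^ 2 := by norm_num
      rw [e, ← pow_add]
      exact Nat.pow_le_pow_right (by norm_num) (by omega))
  rw [Fintype.card_fin] at h4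
  intro m ℓ F hF y hy
  have hD : 2 ^ (2 * u) * Fintype.card (Fin (2 ^ (u + 11))) ≤ 2 ^ (3 * u + 11) := by
    rw [Fintype.card_fin, ← pow_add]
    exact Nat.pow_le_pow_right (by norm_num) (by omega)
  have hlen : (pw as).length = k + 1 := by
    rw [pw, List.length_map]; exact h1
  have h5 := main_leaf' (X := Fin (2 ^ (u + 11))) (n := 8 * u) (u := u) (D := 2 ^ (3 * u + 11))
    (g := 2 ^ (u + 9)) hn hu8 hD k (pw as) hlen ht0 ht1 hw ha3 m ℓ F hF y hy true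
  have h6 := final_numbers hn hu8
  linarith

end Pool.Agent.J6H7.RO
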