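import Pool.Agent.J6H7.RO.Msr
import Pool.Agent.J6H7.RO.Meas
import Pool.Agent.J6H7.RO.Leaf

/-!
# The hard language and the probability of agreement
-/

set_option autoImplicit false

namespace Pool.Agent.J6H7.RO

open Pool.Agent.NPC Finset H568R2 Pool.Agent.H676 Pool.Agent.H620R2.Gauge Pool.Agent.H591R3.PHG
open LangTrAux

/-- Remove `K` parameters and the parameter `w`: the string that is left, as a question to the
first oracle. -/
def cut (K : ℕ) (q : List Bool) : List Bool := true :: (unpair (parse K q).2).2

theorem parse_strip : ∀ (K : ℕ) (q : List Bool), (parse K q).2 = strip K q := by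
  intro K
  induction K with
  | zero => intro q; rfl
  | succ K ih => intro q; exact ih _

theorem poly_cut (K : ℕ) : Poly (cut K) := by
  have h : Poly (fun q : List Bool => (unpair (strip K q)).2) :=
    Poly.snd (poly_unpair.comp (poly_strip K))
  exact (Poly.cons (NPC.Poly.const true) h).congr fun q => by
    show true :: (unpair (strip K q)).2 = cut K q
    rw [cut, parse_strip]

theorem pairBits_app (x y c : List Bool) : pairBits x y ++ c = pairBits x (y ++ c) := by
  simp [pairBits]

theorem enc_app (as : List ℕ) (w : ℕ) (z c : List Bool) :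
    enc as w z ++ c = enc as w (z ++ c) := by
  induction as using List.reverseRecOn with
  | nil =>
    rw [enc_nil, enc_nil, pairBits_app]
  | append_singleton as a ih =>
    rw [enc_append, enc_append, pairBits_app, ih]

theorem addr_enc {X : Type} (bs : List ℕ) (w : ℕ) (z : X → List Bool) : ∀ (as : List ℕ)
    (g : Idx X (pw as)), addr (fun j => enc bs w (z j)) as g = enc bs w (addr z as g) := by
  intro as
  induction as with
  | nil => intro g; rfl
  | cons a as ih =>
    have key : ∀ (g1 : Idx X (pw as)) (i : Fin (2 ^ a)),
        addr (fun j => enc bs w (z j)) as g1 ++ bitsOf a i.val =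
          enc bs w (addr z as g1 ++ bitsOf a i.val) := by
      intro g1 i
      rw [ih, enc_app]
    intro g
    exact key g.1 g.2

theorem cut_enc (as : List ℕ) (w : ℕ) (z : List Bool) :
    cut as.length (enc as w z) = true :: z := by
  unfold cut
  rw [LangTrAux.parse_enc]
  dsimp only
  rw [unpair_pairBits]

/-- the hard language -/
def hard (e : Bool) (k : ℕ) (A E : Oracle) : Set (List Bool) :=
  lang (k + 1) (view e (cut (k + 2)) (join A E))

theorem hard_sig (e : Bool) (k : ℕ) (A E : Oracle) : IsSig (join A E) (k + 2) (hard e k A E) :=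
  isSig_view (lang_sig _ (k + 1)) (poly_cut (k + 2))

theorem mem_hard {X : Type} (e : Bool) (k : ℕ) (A E : Oracle) (as : List ℕ)
    (hk : as.length = k + 2) (z : X → List Bool) (j : X) :
    enc as 1 (z j) ∈ hard e k A E ↔
      Tr (pw as) (fun g : Idx X (pw as) => !(xor e (A (addr z as g)))) j = false := by
  unfold hard
  rw [mem_lang_iff _ (k + 1) as hk 1 z j]
  have h1 : Tr (1 :: pw as) (leaves (fun j => enc as 1 (z j)) as 1
      (view e (cut (k + 2)) (join A E))) j =
      Tr (pw as) (fun g : Idx X (pw as) => !(xor e (A (addr z as g)))) j := by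
    show Tr (pw as) (fun g : Idx X (pw as) => decide (∀ i : Fin 1,
      leaves (fun j => enc as 1 (z j)) as 1 (view e (cut (k + 2)) (join A E)) (g, i) = false)) j = _
    congr 1
    funext g
    have h2 : ∀ i : Fin 1, leaves (fun j => enc as 1 (z j)) as 1
        (view e (cut (k + 2)) (join A E)) (g, i) = xor e (A (addr z as g)) := by
      intro i
      have hi : i.val = 0 := by omega
      show view e (cut (k + 2)) (join A E) (addr (fun j => enc as 1 (z j)) as g ++
        List.replicate i.val true) = _
      rw [hi, List.replicate_zero, List.append_nil, addr_enc]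
      show xor e (join A E (cut (k + 2) (enc as 1 (addr z as g)))) = _
      rw [← hk, cut_enc]
      rfl
    simp only [h2]
    cases xor e (A (addr z as g)) <;> simp
  rw [h1]

/-- the change of sides -/
def sg (e : Bool) : Bool ≃ Bool where
  toFun b := !(xor e b)
  invFun b := !(xor e b)
  left_inv b := by cases e <;> cases b <;> rfl
  right_inv b := by cases e <;> cases b <;> rfl

/-- the bias of the leaves -/
noncomputable def bias (e : Bool) (q : ℝ) : ℝ := if e = true then q else 1 - q

theorem ber_sg (e : Bool) (q : ℝ) (b : Bool) : ber q (sg e b) = ber (bias e q) b := by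
  cases e <;> cases b <;> simp [ber, sg, bias]

theorem sg_sg (e b : Bool) : (!(xor e (sg e b))) = b := (sg e).left_inv b

theorem smp_ovw {I : Type} {pos : I → List Bool} (hpos : Function.Injective pos) (A E : Oracle)
    (σ : Bool → Bool) : Smp (fun z : I → Bool => join (ovw pos (fun g => σ (z g)) A) E) := by
  intro q
  match q with
  | [] => exact Or.inl ⟨false, fun z => rfl⟩
  | false :: x => exact Or.inl ⟨E x, fun z => rfl⟩
  | true :: x =>
    by_cases hx : ∃ i, pos i = x
    · obtain ⟨i, rfl⟩ := hx
      refine Or.inr ⟨i, σ, fun z => ?_⟩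
      show ovw pos (fun g => σ (z g)) A (pos i) = _
      rw [ovw_pos hpos]
    · push Not at hx
      refine Or.inl ⟨A x, fun z => ?_⟩
      show ovw pos (fun g => σ (z g)) A x = _
      rw [ovw_off _ _ hx]

/-- the event that the algorithm is right on the inputs -/
def Agree {X : Type} (e : Bool) (k : ℕ) (E : Oracle) (M : Alg) (m : ℕ) (x : X → List Bool)
    (y : X → List Bool) : Set Oracle :=
  {A | ∀ j, (x j ∈ hard e k A E ↔ Quant m (outV M (join A E)) k true (y j))}

theorem meas_agree {X : Type} [Finite X] (e : Bool) (k : ℕ) (E : Oracle) (M : Alg) (m : ℕ)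
    (x : X → List Bool) (y : X → List Bool) : MeasurableSet (Agree e k E M m x y) := by
  have : Agree e k E M m x y = ⋂ j, {A | x j ∈ hard e k A E ↔
      Quant m (outV M (join A E)) k true (y j)} := by
    ext A
    simp [Agree]
  rw [this]
  refine MeasurableSet.iInter fun j => meas_iff ?_ ?_
  · exact meas_lang (MO_view (MO_join E) e (cut (k + 2))) (k + 1) (x j)
  · exact meas_quant (MO_join E) M m k true (y j)

theorem bool_aux : ∀ a b : Bool, ((b = false ↔ a = true) ↔ a ≠ b) := by decide

open Classical in
theorem agree_bound {X : Type} [Fintype X] [DecidableEq X] (p : ℕ → unitInterval) (e : Bool)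
    (k : ℕ) (E : Oracle) (M : Alg) (m N : ℕ) (as : List ℕ) (hk : as.length = k + 2)
    (z : X → List Bool) (hz : Function.Injective z) (hl : ∀ j, (z j).length + as.sum = N)
    (y : X → List Bool) (β : ℝ)
    (hβ : ∀ A : Oracle, Ms (bias e (p N)) (pw as) (fun _ => none)
      (fun j => QF m (lf M (fun v : Idx X (pw as) → Bool =>
        join (ovw (addr z as) (fun g => sg e (v g)) A) E)) k true (y j)) ≤ β) :
    prob p (Agree e k E M m (fun j => enc as 1 (z j)) y) ≤ β := by
  have hl' : ∀ j, (z j).length = N - as.sum := fun j => by have := hl j; omega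
  rcases isEmpty_or_nonempty X with hX | ⟨⟨j0⟩⟩
  · -- no inputs
    have h0 := hβ (fun _ => false)
    have h1 : Ms (bias e (p N)) (pw as) (fun _ => none)
      (fun j => QF m (lf M (fun v : Idx X (pw as) → Bool =>
        join (ovw (addr z as) (fun g => sg e (v g)) (fun _ => false)) E)) k true (y j)) = 1 := by
      unfold Ms
      have h8 : (fun v : Idx X (pw as) → Bool => (if ∀ j,
          QF m (lf M (fun v : Idx X (pw as) → Bool =>
            join (ovw (addr z as) (fun g => sg e (v g)) (fun _ => false)) E)) k true (y j) v ≠
              Tr (pw as) (val (fun _ => none) v) j then (1 : ℝ) else 0)) = fun _ => 1 :=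
        funext fun v => if_pos fun j => (hX.false j).elim
      rw [h8]
      exact Ex_const (ber_sum_m _) 1
    rw [h1] at h0
    refine le_trans ?_ h0
    exact MeasureTheory.measureReal_le_one
  · have hinj : Function.Injective (addr z as) := addr_inj z hz _ hl' as
    have hN : ∀ g : Idx X (pw as), (addr z as g).length = N := by
      intro g
      rw [length_addr z _ hl' as g]
      have := hl j0
      omega
    refine prob_le_of_ovw p hinj hN (meas_agree e k E M m _ y) fun A => ?_
    refine le_trans (le_of_eq ?_) (hβ A)
    rw [Ex_perm (sg e)]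
    unfold Ms
    have hb : (fun v => ber (p N) (sg e v)) = ber (bias e (p N)) :=
      funext fun v => ber_sg e _ v
    rw [hb]
    congr 1
    funext v
    refine if_congr ?_ rfl rfl
    refine forall_congr' fun j => ?_
    rw [mem_hard e k _ E as hk z j, quant_lf M (fun v : Idx X (pw as) → Bool =>
        join (ovw (addr z as) (fun g => sg e (v g)) A) E) m v k true (y j)]
    have hT : (fun g : Idx X (pw as) => !(xor e (ovw (addr z as) (fun i => sg e (v i)) A
        (addr z as g)))) = val (fun _ => none) v := by
      funext g
      rw [ovw_pos hinj, sg_sg]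
      rfl
    rw [hT]
    exact bool_aux _ _

end Pool.Agent.J6H7.RO
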