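import Pool.Agent.H591R3.PHG.Sig
import Pool.Agent.H620R2.Gauge.U1

/-!
# Oracle algorithms: outputs and questions may be transformed; an upward collapse
-/

set_option autoImplicit false

namespace Pool.Agent.J6H7.RO

open Pool.Agent.NPC Pool.Agent.H620R2.Gauge Pool.Agent.H622R2 Pool.Agent.H591R3.PHG

/-- transform the next action: outputs by `g`, questions by `f` -/
def act (g f : List Bool → List Bool) (s : List Bool) : List Bool :=
  if s = [] then true :: g [] else
    if s.head? = some true then true :: g s.tail else false :: f s.tail

theorem poly_act {g f : List Bool → List Bool} (hg : Poly g) (hf : Poly f) : Poly (act g f) := by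
  have h1 : Poly (fun s : List Bool => g s.tail) := hg.comp (Poly.tail Poly.id)
  have h2 : Poly (fun s : List Bool => f s.tail) := hf.comp (Poly.tail Poly.id)
  unfold act
  exact Poly.ite (Poly.decide_eq Poly.id (NPC.Poly.const [])) (NPC.Poly.const _)
    (Poly.ite (Poly.decide_eq (Poly.head? Poly.id) (NPC.Poly.const _))
      (Poly.cons (NPC.Poly.const true) h1) (Poly.cons (NPC.Poly.const false) h2))

/-- The oracle `q ↦ O (f q) xor e`. -/
def view (e : Bool) (f : List Bool → List Bool) (O : Oracle) : Oracle := fun q => xor e (O (f q))

theorem isFP_trans {O : Oracle} {e : Bool} {f g V : List Bool → List Bool}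
    (hV : IsFP (view e f O) V) (hf : Poly f) (hg : Poly g) : IsFP O (fun x => g (V x)) := by
  obtain ⟨M, hM⟩ := hV
  have hD := poly_of_polyTime M.poly
  have h1 : Poly (fun z : List Bool => (unpair z).1) := Poly.fst poly_unpair
  have h2 : Poly (fun z : List Bool => (unpair z).2.map (fun b => xor e b)) :=
    NPC.Poly.map (F := fun _ b => xor e b) (Poly.snd poly_unpair)
      (Poly.xor (NPC.Poly.const e) (Poly.snd Poly.id))
  have hP : Poly (fun z => act g f (M.D (pairBits (unpair z).1
      ((unpair z).2.map (fun b => xor e b))))) :=
    (poly_act hg hf).comp (hD.comp (poly_pairBits h1 h2))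
  refine ⟨⟨fun z => act g f (M.D (pairBits (unpair z).1 ((unpair z).2.map (fun b => xor e b)))),
    polyTime_of_poly_list hP, M.p⟩, fun x => ?_⟩
  have key : ∀ (n : ℕ) (a : List Bool), Alg.run ⟨fun z => act g f (M.D (pairBits (unpair z).1
      ((unpair z).2.map (fun b => xor e b)))), polyTime_of_poly_list hP, M.p⟩ O x n a =
      (M.run (view e f O) x n (a.map (fun b => xor e b))).map g := by
    intro n
    induction n with
    | zero => intro a; rfl
    | succ n ih =>
      intro a
      simp only [Alg.run, unpair_pairBits]
      rcases M.D (pairBits x (a.map (fun b => xor e b))) with _ | ⟨c, r⟩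
      · rfl
      · cases c with
        | true => rfl
        | false =>
          have h3 := ih (a ++ [O (f r)])
          rw [List.map_append, List.map_singleton] at h3
          exact h3
  unfold Alg.out at hM ⊢
  rw [key]
  have h4 := hM x
  simp only [List.map_nil]
  rw [h4]
  rfl

theorem view_false_id (O : Oracle) : view false id O = O := by
  funext q
  simp [view]

/-- a polynomial-time computation after an oracle algorithm -/
theorem isFP_post {O : Oracle} {V g : List Bool → List Bool} (hV : IsFP O V) (hg : Poly g) :
    IsFP O (fun x => g (V x)) := by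
  refine isFP_trans (e := false) (f := id) ?_ Poly.id hg
  rw [view_false_id]
  exact hV

/-- a level of the hierarchy relative to a view of the oracle -/
theorem isSig_view {O : Oracle} {e : Bool} {f : List Bool → List Bool} {k : ℕ}
    {L : Set (List Bool)} (h : IsSig (view e f O) k L) (hf : Poly f) : IsSig O k L := by
  obtain ⟨V, p, hV, hL⟩ := h
  exact ⟨V, p, isFP_trans (g := id) hV hf Poly.id, hL⟩

/-! ### Bounds which depend on the innermost string -/

/-- Truncation of the quantified strings to the length `μ x`, where `x` is the innermost string,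
which is replaced by `π x`. -/
def gtrunc (μ : List Bool → ℕ) (π : List Bool → List Bool) : ℕ → List Bool →
    List Unit × List Bool
  | 0, y => (List.replicate (μ y) (), π y)
  | k + 1, z => ((gtrunc μ π k (unpair z).2).1,
      pairBits (((unpair z).1.zip (gtrunc μ π k (unpair z).2).1).map (fun u => u.1))
        (gtrunc μ π k (unpair z).2).2)

theorem poly_gtrunc {μ : List Bool → ℕ} {π : List Bool → List Bool} (hμ : UPoly μ) (hπ : Poly π)
    (k : ℕ) : Poly (gtrunc μ π k) := by
  have h1 : Poly (fun z : List Bool => (unpair z).1) := Poly.fst poly_unpair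
  have h2 : Poly (fun z : List Bool => (unpair z).2) := Poly.snd poly_unpair
  induction k with
  | zero => exact (Poly.pair hμ hπ).congr (fun z => rfl)
  | succ k ih =>
    have h3 : Poly (fun z : List Bool => gtrunc μ π k (unpair z).2) := ih.comp h2
    have h4 : Poly (fun z : List Bool => (unpair z).1.zip (gtrunc μ π k (unpair z).2).1) :=
      Poly.zip h1 (Poly.fst h3)
    have h5 : Poly (fun z : List Bool =>
        ((unpair z).1.zip (gtrunc μ π k (unpair z).2).1).map (fun u => u.1)) :=
      NPC.Poly.map (F := fun _ u => u.1) h4 (Poly.fst (Poly.snd Poly.id))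
    exact (Poly.pair (Poly.fst h3) (poly_pairBits h5 (Poly.snd h3))).congr (fun z => rfl)

theorem quant_gtrunc (μ : List Bool → ℕ) (π : List Bool → List Bool) (V : List Bool → List Bool)
    {m m' : ℕ} (hm : m ≤ m') :
    ∀ (k j : ℕ) (b : Bool) (y t : List Bool), gtrunc μ π j y = (List.replicate m (), t) →
      (Quant m V k b t ↔ Quant m' (fun z => V (gtrunc μ π (j + k) z).2) k b y) := by
  intro k
  induction k with
  | zero =>
    intro j b y t h
    cases b <;> simp [Quant, h]
  | succ k ih =>
    intro j b y t h
    have key : ∀ w : List Bool, gtrunc μ π (j + 1) (pairBits w y) =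
        (List.replicate m (), pairBits (w.take m) t) := by
      intro w
      simp only [gtrunc, unpair_pairBits, h, U2.map_fst_zip_replicate]
    have e : j + 1 + k = j + (k + 1) := by omega
    cases b with
    | true =>
      simp only [Quant]
      constructor
      · rintro ⟨w, hw, h1⟩
        refine ⟨w, hw.trans hm, ?_⟩
        have h2 := (ih (j + 1) false (pairBits w y) _ (key w))
        rw [List.take_of_length_le hw, e] at h2
        exact h2.1 h1
      · rintro ⟨w, hw, h1⟩
        refine ⟨w.take m, by simp, ?_⟩
        have h2 := (ih (j + 1) false (pairBits w y) _ (key w))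
        rw [e] at h2
        exact h2.2 h1
    | false =>
      simp only [Quant]
      constructor
      · intro h1 w hw
        have h2 := (ih (j + 1) true (pairBits w y) _ (key w))
        rw [e] at h2
        exact h2.1 (h1 (w.take m) (by simp))
      · intro h1 w hw
        have h2 := (ih (j + 1) true (pairBits w y) _ (key w))
        rw [List.take_of_length_le hw, e] at h2
        exact h2.2 (h1 w (hw.trans hm))

/-- negation of the output -/
def negO (s : List Bool) : List Bool := [decide (¬ s = [true])]

theorem poly_negO : Poly negO :=
  (Poly.cons (Poly.not (Poly.decide_eq Poly.id (NPC.Poly.const [true])))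
    (NPC.Poly.const [])).congr fun s => by
      unfold negO
      by_cases h : s = [true] <;> simp [h]

theorem not_quant (m : ℕ) (V : List Bool → List Bool) : ∀ (k : ℕ) (b : Bool) (y : List Bool),
    (¬ Quant m V k b y ↔ Quant m (fun z => negO (V z)) k (!b) y) := by
  intro k
  induction k with
  | zero =>
    intro b y
    cases b <;> simp [Quant, negO]
  | succ k ih =>
    intro b y
    cases b with
    | true =>
      simp only [Quant, Bool.not_true, not_exists, not_and]
      refine forall_congr' fun w => forall_congr' fun _ => ?_
      exact ih false _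
    | false =>
      simp only [Quant, Bool.not_false, not_forall]
      refine exists_congr fun w => ?_
      rw [exists_prop]
      exact and_congr_right fun _ => ih true _

theorem upoly_bound {μ : List Bool → ℕ} (hμ : UPoly μ) :
    ∃ p : Polynomial ℕ, ∀ y, μ y ≤ p.eval y.length := by
  obtain ⟨q, hq⟩ := Poly.sz_le hμ
  refine ⟨q.comp (Polynomial.C 4 * Polynomial.X + Polynomial.C 1), fun y => ?_⟩
  rw [Polynomial.eval_comp]
  have h1 := length_lt_sz (List.replicate (μ y) ())
  rw [List.length_replicate] at h1
  refine h1.le.trans ((hq y).trans (eval_mono _ ?_))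
  have h5 := sz_listBool_le y
  simpa using h5

/-- bounds and strings which are computable in polynomial time -/
theorem isSig_of {A : Oracle} {k : ℕ} {μ : List Bool → ℕ} {π : List Bool → List Bool}
    (hμ : UPoly μ) (hπ : Poly π) {V : List Bool → List Bool} (hV : IsFP A V)
    {L : Set (List Bool)} (hL : ∀ y, y ∈ L ↔ Quant (μ y) V k true (π y)) : IsSig A k L := by
  obtain ⟨p, hp⟩ := upoly_bound hμ
  refine ⟨fun z => V (gtrunc μ π k z).2, p, hV.precomp (Poly.snd (poly_gtrunc hμ hπ k)),
    fun y => ?_⟩
  rw [hL y]
  have h := quant_gtrunc μ π V (hp y) k 0 true y (π y) rfl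
  rw [zero_add] at h
  exact h

/-- **Upward collapse.** If two consecutive levels coincide, then so does the next one. -/
theorem upward {A : Oracle} {k : ℕ} (h : ∀ L, IsSig A (k + 1) L → IsSig A k L) (L : Set (List Bool))
    (hL : IsSig A (k + 2) L) : IsSig A k L := by
  obtain ⟨V, p, hV, hL⟩ := hL
  have h2 : Poly (fun z : List Bool => (unpair z).2) := Poly.snd poly_unpair
  have hμ1 : UPoly (fun y : List Bool => p.eval (unpair y).2.length) :=
    UPoly.eval (UPoly.length h2) p
  have hS1 : IsSig A (k + 1) {y | Quant (p.eval (unpair y).2.length)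
      (fun z => negO (V z)) (k + 1) true y} :=
    isSig_of hμ1 Poly.id (isFP_post hV poly_negO) fun y => Iff.rfl
  obtain ⟨V1, p1, hV1, hL1⟩ := h _ hS1
  apply h
  -- the string `w` is truncated to the length `p |x|`
  set π : List Bool → List Bool := fun y =>
    pairBits (((unpair y).1.zip (List.replicate (p.eval (unpair y).2.length) ())).map
      (fun u => u.1)) (unpair y).2 with hπdef
  have h1 : Poly (fun z : List Bool => (unpair z).1) := Poly.fst poly_unpair
  have hπ : Poly π := by
    have h4 : Poly (fun y : List Bool =>
        (unpair y).1.zip (List.replicate (p.eval (unpair y).2.length) ())) := Poly.zip h1 hμ1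
    exact poly_pairBits (NPC.Poly.map (F := fun _ u => u.1) h4 (Poly.fst (Poly.snd Poly.id))) h2
  have hπe : ∀ w x : List Bool, π (pairBits w x) = pairBits (w.take (p.eval x.length)) x := by
    intro w x
    simp only [hπdef, unpair_pairBits, U2.map_fst_zip_replicate]
  set μ : List Bool → ℕ := fun y => p1.eval (π y).length with hμdef
  have hμ : UPoly μ := UPoly.eval (UPoly.length hπ) p1
  set m : Polynomial ℕ := p + p1.comp (2 * p + 1 + Polynomial.X) with hm
  have hmp : ∀ x : List Bool, p.eval x.length ≤ m.eval x.length := by
    intro x
    rw [hm, Polynomial.eval_add]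
    exact Nat.le_add_right _ _
  have hmμ : ∀ w x : List Bool, μ (pairBits w x) ≤ m.eval x.length := by
    intro w x
    rw [hm, Polynomial.eval_add, Polynomial.eval_comp]
    refine le_trans ?_ (Nat.le_add_left _ _)
    simp only [hμdef]
    refine eval_mono _ ?_
    rw [hπe, Pool.Agent.H620R2.Gauge.length_pairBits]
    have : (w.take (p.eval x.length)).length ≤ p.eval x.length := by simp
    simp only [Polynomial.eval_add, Polynomial.eval_mul, Polynomial.eval_ofNat,
      Polynomial.eval_one, Polynomial.eval_X]
    omega
  refine ⟨fun z => negO (V1 (gtrunc μ π k z).2), m,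
    isFP_post (hV1.precomp (Poly.snd (poly_gtrunc hμ hπ k))) poly_negO, fun x => ?_⟩
  rw [hL x]
  have step : ∀ w : List Bool, (Quant (m.eval x.length)
      (fun z => negO (V1 (gtrunc μ π k z).2)) k false (pairBits w x) ↔
      ¬ (pairBits (w.take (p.eval x.length)) x ∈ {y | Quant (p.eval (unpair y).2.length)
        (fun z => negO (V z)) (k + 1) true y})) := by
    intro w
    rw [hL1]
    have h5 := quant_gtrunc μ π (fun z => negO (V1 z)) (hmμ w x) k 0 false (pairBits w x)
      (π (pairBits w x)) rfl
    rw [zero_add] at h5
    rw [← h5, hπe, not_quant]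
    simp only [hμdef, hπe, Bool.not_true]
  have back : ∀ w : List Bool, w.length ≤ p.eval x.length →
      (¬ (pairBits w x ∈ {y | Quant (p.eval (unpair y).2.length)
        (fun z => negO (V z)) (k + 1) true y}) ↔
      Quant (p.eval x.length) V (k + 1) false (pairBits w x)) := by
    intro w _
    rw [Set.mem_ofPred_eq, unpair_pairBits]
    dsimp only
    have h6 := not_quant (p.eval x.length) V (k + 1) false (pairBits w x)
    rw [Bool.not_false] at h6
    rw [← h6, not_not]
  constructor
  · rintro ⟨w, hw, h7⟩
    refine ⟨w, hw.trans (hmp x), ?_⟩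
    rw [step w, List.take_of_length_le hw, back w hw]
    exact h7
  · rintro ⟨w, hw, h7⟩
    rw [step w] at h7
    have h8 : (w.take (p.eval x.length)).length ≤ p.eval x.length := by simp
    rw [back _ h8] at h7
    exact ⟨_, h8, h7⟩

end Pool.Agent.J6H7.RO
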