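import Pool.Agent.J6H7.RO.Dtr
import Pool.Agent.J6H7.RO.Orc

/-!
# Measurability
-/

set_option autoImplicit false

namespace Pool.Agent.J6H7.RO

open Pool.Agent.NPC MeasureTheory Pool.Agent.H620R2.Gauge Pool.Agent.H591R3.PHG

/-- the bits of the oracle are measurable -/
def MO (O : Oracle → Oracle) : Prop := ∀ q b, MeasurableSet {A | O A q = b}

theorem MO_join (E : Oracle) : MO (fun A => join A E) := by
  intro q b
  match q with
  | [] =>
    show MeasurableSet {_A : Oracle | false = b}
    exact MeasurableSet.const _
  | true :: x =>
    show MeasurableSet {A : Oracle | A x = b}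
    have h0 : Measurable (fun A : Oracle => A x) := measurable_pi_apply x
    exact h0 (MeasurableSet.singleton b)
  | false :: x =>
    show MeasurableSet {_A : Oracle | E x = b}
    exact MeasurableSet.const _

theorem MO_view {O : Oracle → Oracle} (h : MO O) (e : Bool) (f : List Bool → List Bool) :
    MO (fun A => view e f (O A)) := by
  intro q b
  have : {A | view e f (O A) q = b} = {A | O A (f q) = xor e b} := by
    ext A
    show xor e (O A (f q)) = b ↔ O A (f q) = xor e b
    cases e <;> cases b <;> cases O A (f q) <;> simp
  rw [this]
  exact h _ _

theorem meas_run {O : Oracle → Oracle} (h : MO O) (M : Alg) (y z : List Bool) :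
    ∀ (n : ℕ) (acc : List Bool), MeasurableSet {A | M.run (O A) y n acc = some z} := by
  intro n
  induction n with
  | zero =>
    intro acc
    simp only [Alg.run]
    exact MeasurableSet.const _
  | succ n ih =>
    intro acc
    rcases hq : M.D (pairBits y acc) with _ | ⟨c, q⟩
    · simp only [Alg.run, hq]
      exact MeasurableSet.const _
    · cases c with
      | true =>
        simp only [Alg.run, hq]
        exact MeasurableSet.const _
      | false =>
        simp only [Alg.run, hq]
        have : {A | M.run (O A) y n (acc ++ [O A q]) = some z} =
            ({A | O A q = true} ∩ {A | M.run (O A) y n (acc ++ [true]) = some z}) ∪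
            ({A | O A q = false} ∩ {A | M.run (O A) y n (acc ++ [false]) = some z}) := by
          ext A
          show M.run (O A) y n (acc ++ [O A q]) = some z ↔
            (O A q = true ∧ M.run (O A) y n (acc ++ [true]) = some z) ∨
            (O A q = false ∧ M.run (O A) y n (acc ++ [false]) = some z)
          cases hb : O A q <;> simp
        rw [this]
        exact ((h q true).inter (ih _)).union ((h q false).inter (ih _))

theorem meas_out {O : Oracle → Oracle} (h : MO O) (M : Alg) (y : List Bool) :
    MeasurableSet {A | outV M (O A) y = [true]} := by
  simp only [outV_eq]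
  exact meas_run h M y [true] _ []

theorem meas_quant {O : Oracle → Oracle} (h : MO O) (M : Alg) (m : ℕ) :
    ∀ (k : ℕ) (b : Bool) (y : List Bool), MeasurableSet {A | Quant m (outV M (O A)) k b y} := by
  intro k
  induction k with
  | zero =>
    intro b y
    cases b <;> exact meas_out h M y
  | succ k ih =>
    intro b y
    cases b with
    | true =>
      have : {A | Quant m (outV M (O A)) (k + 1) true y} =
          ⋃ w : List Bool, {A | w.length ≤ m ∧ Quant m (outV M (O A)) k false (pairBits w y)} := by
        ext A
        simp [Quant]
      rw [this]
      refine MeasurableSet.iUnion fun w => ?_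
      exact (MeasurableSet.const (w.length ≤ m)).inter (ih false _)
    | false =>
      have : {A | Quant m (outV M (O A)) (k + 1) false y} =
          ⋂ w : List Bool, {A | w.length ≤ m → Quant m (outV M (O A)) k true (pairBits w y)} := by
        ext A
        simp [Quant]
      rw [this]
      refine MeasurableSet.iInter fun w => ?_
      by_cases hw : w.length ≤ m
      · simp only [hw, true_imp_iff]
        exact ih true _
      · simp only [hw, false_imp_iff]
        exact MeasurableSet.const _

theorem meas_up {O : Oracle → Oracle} (h : MO O) (w : ℕ) : ∀ (as : List ℕ) (q : List Bool)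
    (b : Bool), MeasurableSet {A | (as.foldr up (bitv (O A) w)) q = b} := by
  have compl : ∀ (G : Oracle → Bool), MeasurableSet {A | G A = true} →
      ∀ b, MeasurableSet {A | G A = b} := by
    intro G hG b
    cases b with
    | true => exact hG
    | false =>
      have : {A | G A = false} = {A | G A = true}ᶜ := by
        ext A
        show G A = false ↔ ¬ G A = true
        simp
      rw [this]
      exact hG.compl
  intro as
  induction as with
  | nil =>
    intro q
    refine compl _ ?_
    show MeasurableSet {A | bitv (O A) w q = true}
    have : {A | bitv (O A) w q = true} =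
        ⋂ l : ℕ, {A | l < w → O A (q ++ List.replicate l true) = false} := by
      ext A
      simp [bitv]
    rw [this]
    refine MeasurableSet.iInter fun l => ?_
    by_cases hl : l < w
    · simp only [hl, true_imp_iff]
      exact h _ _
    · simp only [hl, false_imp_iff]
      exact MeasurableSet.const _
  | cons a as ih =>
    intro q
    refine compl _ ?_
    have : {A | ((a :: as).foldr up (bitv (O A) w)) q = true} =
        ⋂ i : ℕ, {A | i < 2 ^ a → (as.foldr up (bitv (O A) w)) (q ++ bitsOf a i) = false} := by
      ext A
      simp [up]
    rw [this]
    refine MeasurableSet.iInter fun l => ?_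
    by_cases hl : l < 2 ^ a
    · simp only [hl, true_imp_iff]
      exact ih _ _
    · simp only [hl, false_imp_iff]
      exact MeasurableSet.const _

theorem meas_lang {O : Oracle → Oracle} (h : MO O) (k : ℕ) (x : List Bool) :
    MeasurableSet {A | x ∈ lang k (O A)} := by
  have := meas_up h (unpair (parse (k + 1) x).2).1.length (parse (k + 1) x).1 x false
  exact this

theorem meas_iff {P Q : Oracle → Prop} (hP : MeasurableSet {A | P A})
    (hQ : MeasurableSet {A | Q A}) : MeasurableSet {A | P A ↔ Q A} := by
  have : {A | P A ↔ Q A} = ({A | P A} ∩ {A | Q A}) ∪ ({A | P A}ᶜ ∩ {A | Q A}ᶜ) := by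
    ext A
    show (P A ↔ Q A) ↔ (P A ∧ Q A) ∨ (¬ P A ∧ ¬ Q A)
    tauto
  rw [this]
  exact (hP.inter hQ).union (hP.compl.inter hQ.compl)

end Pool.Agent.J6H7.RO
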